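import Pool.Agent.X25.Li.Coeff

/-! Large negative and positive coefficients in all long blocks of multiples of `q`. -/

set_option autoImplicit false

namespace Pool.Agent.X25.Li

open Metric Set Filter Topology

theorem growth {r R C δ : ℝ} (hr : 0 < r) (hrR : r < R) (hR : R < 1) (hδ : 0 < δ) :
    ∃ c : ℝ, 0 < c ∧ ∃ N : ℕ, ∀ n : ℕ, N ≤ n → C * (R⁻¹) ^ n + Real.exp (c * n) ≤ δ * (r⁻¹) ^ n := by
  have hr1 : r < 1 := hrR.trans hR
  have hR0 : 0 < R := hr.trans hrR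
  have hx1 : 1 < r⁻¹ := (one_lt_inv₀ hr).2 hr1
  set c : ℝ := Real.log r⁻¹ / 2 with hc
  have hl : 0 < Real.log r⁻¹ := Real.log_pos hx1
  have hc0 : 0 < c := by rw [hc]; linarith
  have hcx : Real.exp c < r⁻¹ := by
    rw [← Real.lt_log_iff_exp_lt (by positivity)]
    rw [hc]; linarith
  have h1 : Tendsto (fun n : ℕ => |C| * (r * R⁻¹) ^ n + (r * Real.exp c) ^ n) atTop (𝓝 (|C| * 0 + 0)) := by
    refine ((tendsto_pow_atTop_nhds_zero_of_lt_one (by positivity) ?_).const_mul _).add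
      (tendsto_pow_atTop_nhds_zero_of_lt_one (by positivity) ?_)
    · rw [← div_eq_mul_inv, div_lt_one (hr.trans hrR)]; exact hrR
    · calc r * Real.exp c < r * r⁻¹ := mul_lt_mul_of_pos_left hcx hr
        _ = 1 := mul_inv_cancel₀ hr.ne'
  rw [mul_zero, add_zero] at h1
  obtain ⟨N, hN⟩ := eventually_atTop.1 (h1.eventually (gt_mem_nhds hδ))
  refine ⟨c, hc0, N, fun n hn => ?_⟩
  have h2 := (hN n hn).le
  have h3 : 0 < (r⁻¹) ^ n := by positivity
  have h4 := mul_le_mul_of_nonneg_right h2 h3.le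
  have h5 : (|C| * (r * R⁻¹) ^ n + (r * Real.exp c) ^ n) * r⁻¹ ^ n =
      |C| * (R⁻¹) ^ n + Real.exp (c * n) := by
    have e1 : (r : ℝ) ^ n * r⁻¹ ^ n = 1 := by rw [← mul_pow, mul_inv_cancel₀ hr.ne', one_pow]
    have e2 : Real.exp (c * n) = Real.exp c ^ n := by rw [← Real.exp_nat_mul, mul_comm]
    rw [e2, mul_pow, mul_pow]
    linear_combination (|C| * R⁻¹ ^ n + Real.exp c ^ n) * e1
  rw [h5] at h4
  refine le_trans ?_ h4
  have h6 : C * R⁻¹ ^ n ≤ |C| * R⁻¹ ^ n := by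
    have : 0 < R⁻¹ := inv_pos.2 (hr.trans hrR)
    gcongr
    exact le_abs_self C
  linarith

/-- **Blocks of multiples of `q`.** -/
theorem blocks {φ : ℂ → ℂ} (hφ : AnalyticOnNhd ℂ φ (ball 0 1)) (h0 : φ 0 ≠ 0)
    (hz : ∃ u : ℂ, ‖u‖ < 1 ∧ φ u = 0) {q : ℕ} (hq : 1 ≤ q)
    (harg : ∀ u : ℂ, ‖u‖ < 1 → φ u = 0 → u ^ q ≠ ((‖u‖ : ℝ) : ℂ) ^ q) :
    ∃ c δ : ℝ, 0 < c ∧ 0 < δ ∧ ∃ N : ℕ, ∀ b K : ℕ, N ≤ b → N ≤ K →
      δ * K ≤ (((Finset.range K).filter fun j =>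
        (tc (fun z => deriv φ z / φ z) (q * (b + j) - 1)).re ≤ -Real.exp (c * (q * (b + j) : ℕ))).card : ℝ) ∧
      δ * K ≤ (((Finset.range K).filter fun j =>
        Real.exp (c * (q * (b + j) : ℕ)) ≤ (tc (fun z => deriv φ z / φ z) (q * (b + j) - 1)).re).card : ℝ) := by
  classical
  obtain ⟨u₀, hu₀, hzu⟩ := hz
  obtain ⟨Z, m, r, R, C, hZ, hr, hrR, hR, hC, hZm, hco⟩ := coeff_asymp hφ h0 hu₀ hzu
  set w : ℂ → ℂ := fun u => ((r : ℂ) * u⁻¹) ^ q with hw
  have hwn : ∀ u ∈ Z, ‖w u‖ = 1 := by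
    intro u hu
    rw [hw]
    show ‖((r : ℂ) * u⁻¹) ^ q‖ = 1
    rw [norm_pow, norm_mul, norm_inv, (hZm u hu).1, Complex.norm_real, Real.norm_of_nonneg hr.le,
      mul_inv_cancel₀ hr.ne', one_pow]
  have hw1 : ∀ u ∈ Z, w u ≠ 1 := by
    intro u hu h
    obtain ⟨h1, h2, -⟩ := hZm u hu
    have hun : ‖u‖ < 1 := by rw [h1]; exact hrR.trans hR
    have hu0 : u ≠ 0 := by
      intro h3
      rw [h3, norm_zero] at h1
      exact hr.ne h1
    apply harg u hun h2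
    rw [h1]
    have h3 : ((r : ℂ) * u⁻¹) ^ q = 1 := h
    rw [mul_pow, inv_pow] at h3
    have h4 : u ^ q ≠ 0 := pow_ne_zero _ hu0
    field_simp at h3
    exact h3.symm
  obtain ⟨δ, hδ, K0, hT⟩ := dense_TT (Z := Z) (m := fun u => (m u : ℝ)) (w := w)
    (fun u hu => by exact_mod_cast (hZm u hu).2.2) hwn hw1 hZ
  obtain ⟨c, hc, N, hN⟩ := growth (C := C) hr hrR hR hδ
  -- the formula
  have key : ∀ k : ℕ, 1 ≤ k → |(tc (fun z => deriv φ z / φ z) (q * k - 1)).re +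
      (r⁻¹) ^ (q * k) * (TT Z (fun u => (m u : ℝ)) w k).re| ≤ C * (R⁻¹) ^ (q * k) := by
    intro k hk
    have hqk : 1 ≤ q * k := Nat.one_le_iff_ne_zero.2 (Nat.mul_ne_zero (by omega) (by omega))
    have h1 := hco (q * k - 1)
    have h2 : q * k - 1 + 1 = q * k := by omega
    rw [h2] at h1
    have h3 : ∑ u ∈ Z, (m u : ℂ) * u⁻¹ ^ (q * k) = ((r⁻¹ ^ (q * k) : ℝ) : ℂ) * TT Z (fun u => (m u : ℝ)) w k := by
      unfold TT
      rw [Finset.mul_sum]
      refine Finset.sum_congr rfl fun u _ => ?_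
      have h4 : w u ^ k = (r : ℂ) ^ (q * k) * u⁻¹ ^ (q * k) := by
        rw [hw]
        show (((r : ℂ) * u⁻¹) ^ q) ^ k = _
        rw [← pow_mul, mul_pow]
      rw [h4]
      have h5 : ((r⁻¹ ^ (q * k) : ℝ) : ℂ) * (r : ℂ) ^ (q * k) = 1 := by
        have : (r : ℂ) ≠ 0 := by exact_mod_cast hr.ne'
        push_cast
        rw [← mul_pow, inv_mul_cancel₀ this, one_pow]
      have h6 : (((m u : ℕ) : ℝ) : ℂ) = (m u : ℂ) := by push_cast; rfl
      rw [h6]
      linear_combination (-(m u : ℂ) * u⁻¹ ^ (q * k)) * h5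
    rw [h3] at h1
    have h7 := (Complex.abs_re_le_norm _).trans h1
    rw [Complex.add_re, Complex.re_ofReal_mul] at h7
    refine h7.trans ?_
    have hR1 : 1 ≤ R⁻¹ := (one_lt_inv₀ (hr.trans hrR)).2 hR |>.le
    exact mul_le_mul_of_nonneg_left (pow_le_pow_right₀ hR1 (by omega)) hC
  refine ⟨c, δ, hc, hδ, max (max N 1) K0, fun b K hb hK => ?_⟩
  have hb1 : 1 ≤ b := (le_max_right _ _).trans ((le_max_left _ _).trans hb)
  have hbN : N ≤ b := (le_max_left _ _).trans ((le_max_left _ _).trans hb)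
  have hKK : K0 ≤ K := (le_max_right _ _).trans hK
  have hgr : ∀ j, C * (R⁻¹) ^ (q * (b + j)) + Real.exp (c * (q * (b + j) : ℕ)) ≤ δ * (r⁻¹) ^ (q * (b + j)) := by
    intro j
    refine hN _ ?_
    calc N ≤ b + j := by omega
      _ = 1 * (b + j) := (one_mul _).symm
      _ ≤ q * (b + j) := Nat.mul_le_mul_right _ hq
  have hrp : ∀ n : ℕ, 0 < r⁻¹ ^ n := fun n => by positivity
  obtain ⟨h1, h2⟩ := hT b K hKK
  constructor
  · refine h2.trans ?_
    exact_mod_cast Finset.card_le_card (Finset.monotone_filter_right _ fun j _ h => by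
      have h3 : δ ≤ (TT Z (fun u => (m u : ℝ)) w (b + j)).re := h
      have h4 := (abs_le.1 (key (b + j) (by omega))).2
      have h5 := hgr j
      have h6 : δ * r⁻¹ ^ (q * (b + j)) ≤ r⁻¹ ^ (q * (b + j)) * (TT Z (fun u => (m u : ℝ)) w (b + j)).re := by
        rw [mul_comm]
        exact mul_le_mul_of_nonneg_left h3 (hrp _).le
      show (tc (fun z => deriv φ z / φ z) (q * (b + j) - 1)).re ≤ -Real.exp (c * (q * (b + j) : ℕ))
      linarith)
  · refine h1.trans ?_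
    exact_mod_cast Finset.card_le_card (Finset.monotone_filter_right _ fun j _ h => by
      have h3 : (TT Z (fun u => (m u : ℝ)) w (b + j)).re ≤ -δ := h
      have h4 := (abs_le.1 (key (b + j) (by omega))).1
      have h5 := hgr j
      have h6 : r⁻¹ ^ (q * (b + j)) * (TT Z (fun u => (m u : ℝ)) w (b + j)).re ≤ -(δ * r⁻¹ ^ (q * (b + j))) := by
        have := mul_le_mul_of_nonneg_left h3 (hrp (q * (b + j))).le
        linarith
      show Real.exp (c * (q * (b + j) : ℕ)) ≤ (tc (fun z => deriv φ z / φ z) (q * (b + j) - 1)).re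
      linarith)

end Pool.Agent.X25.Li
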