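import Pool.Agent.X25.Li.Trig
import Pool.Agent.W775.SR.Dom

/-! Taylor coefficients of the logarithmic derivative of a function analytic in the unit disc. -/

set_option autoImplicit false

namespace Pool.Agent.X25.Li

open Metric Set Filter Topology

/-- the `n`-th Taylor coefficient at `0` -/
noncomputable def tc (f : ℂ → ℂ) (n : ℕ) : ℂ := iteratedDeriv n f 0 / (n.factorial : ℂ)

theorem tc_congr {f g : ℂ → ℂ} (h : f =ᶠ[𝓝 0] g) (n : ℕ) : tc f n = tc g n := by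
  unfold tc
  rw [h.iteratedDeriv_eq n]

theorem tc_add {f g : ℂ → ℂ} (hf : AnalyticAt ℂ f 0) (hg : AnalyticAt ℂ g 0) (n : ℕ) :
    tc (fun z => f z + g z) n = tc f n + tc g n := by
  unfold tc
  rw [iteratedDeriv_fun_add hf.contDiffAt hg.contDiffAt, add_div]

theorem tc_sum {ι : Type*} {s : Finset ι} {f : ι → ℂ → ℂ} (hf : ∀ i ∈ s, AnalyticAt ℂ (f i) 0) (n : ℕ) :
    tc (fun z => ∑ i ∈ s, f i z) n = ∑ i ∈ s, tc (f i) n := by
  unfold tc
  rw [iteratedDeriv_fun_sum fun i hi => (hf i hi).contDiffAt, Finset.sum_div]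

theorem tc_const_mul (c : ℂ) (f : ℂ → ℂ) (n : ℕ) :
    tc (fun z => c * f z) n = c * tc f n := by
  unfold tc
  rw [iteratedDeriv_const_mul_field, mul_div_assoc]

theorem an_inv {u : ℂ} (hu : u ≠ 0) : AnalyticAt ℂ (fun z => (z - u)⁻¹) 0 := by
  refine AnalyticAt.inv (by fun_prop) ?_
  simpa using hu

theorem tc_inv {u : ℂ} (hu : u ≠ 0) (n : ℕ) : tc (fun z => (z - u)⁻¹) n = -(u⁻¹ ^ (n + 1)) := by
  unfold tc
  have h1 : (fun z : ℂ => (z - u)⁻¹) = fun z => ((1 : ℂ) * z - u)⁻¹ := by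
    funext z; rw [one_mul]
  rw [h1, iteratedDeriv_eq_iterate, iter_deriv_inv_linear_sub]
  have h2 : (n.factorial : ℂ) ≠ 0 := by exact_mod_cast n.factorial_ne_zero
  have h3 : ((1 : ℂ) * 0 - u) ^ (-1 - (n : ℤ)) = ((-u)⁻¹) ^ (n + 1) := by
    rw [one_mul, zero_sub, show (-1 - (n : ℤ)) = -((n + 1 : ℕ) : ℤ) by push_cast; ring, zpow_neg,
      zpow_natCast, inv_pow]
  simp only [one_pow, mul_one]
  rw [h3, inv_neg, neg_pow (u⁻¹) (n + 1), pow_succ (-1 : ℂ) n]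
  have h4 : ((-1 : ℂ) ^ n) * ((-1 : ℂ) ^ n) = 1 := by
    rw [← mul_pow]; norm_num
  field_simp
  linear_combination (-1 : ℂ) * h4

/-- Cauchy's estimate -/
theorem tc_le {g : ℂ → ℂ} {R : ℝ} (hR : 0 < R) (hg : AnalyticOnNhd ℂ g (closedBall 0 R)) :
    ∃ C : ℝ, 0 ≤ C ∧ ∀ n, ‖tc g n‖ ≤ C * (R⁻¹) ^ n := by
  obtain ⟨C, hC⟩ := (isCompact_sphere (0 : ℂ) R).exists_bound_of_continuousOn
    (hg.continuousOn.mono sphere_subset_closedBall)
  refine ⟨max C 0, le_max_right _ _, fun n => ?_⟩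
  have hd : DiffContOnCl ℂ g (ball 0 R) := by
    refine ⟨hg.differentiableOn.mono ball_subset_closedBall, ?_⟩
    rw [closure_ball _ hR.ne']
    exact hg.continuousOn
  have h1 := Complex.norm_iteratedDeriv_le_of_forall_mem_sphere_norm_le n hR hd hC
  unfold tc
  rw [norm_div, Complex.norm_natCast]
  have h2 : (0 : ℝ) < n.factorial := by exact_mod_cast n.factorial_pos
  rw [div_le_iff₀ h2]
  refine h1.trans ?_
  rw [inv_pow]
  have h3 : 0 < R ^ n := by positivity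
  calc (n.factorial : ℝ) * C / R ^ n ≤ n.factorial * max C 0 / R ^ n := by
        gcongr; exact le_max_left _ _
    _ = max C 0 * (R ^ n)⁻¹ * n.factorial := by field_simp

/-- a radius without zeros -/
theorem exists_radius {φ : ℂ → ℂ} (hφ : AnalyticOnNhd ℂ φ (ball 0 1)) (h0 : φ 0 ≠ 0) {s : ℝ} (hs : s < 1) :
    ∃ R : ℝ, s < R ∧ R < 1 ∧ ∀ z ∈ sphere (0 : ℂ) R, φ z ≠ 0 := by
  set t : ℝ := (1 + s) / 2 with ht
  have ht1 : t < 1 := by rw [ht]; linarith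
  have hst : s < t := by rw [ht]; linarith
  have hfin : ({z | φ z = 0} ∩ closedBall (0 : ℂ) t).Finite := by
    by_contra hinf
    obtain ⟨x, hx, hxa⟩ := (show ({z | φ z = 0} ∩ closedBall (0 : ℂ) t).Infinite from hinf).exists_accPt_of_subset_isCompact
      (isCompact_closedBall (0 : ℂ) t) inter_subset_right
    rw [accPt_iff_frequently_nhdsNE] at hxa
    have hxb : x ∈ ball (0 : ℂ) 1 := closedBall_subset_ball ht1 hx
    have h1 := hφ.eqOn_zero_of_preconnected_of_frequently_eq_zero (convex_ball (0 : ℂ) 1).isPreconnected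
      hxb (hxa.mono fun y hy => hy.1)
    exact h0 (h1 (mem_ball_self one_pos))
  have hfin2 : ((fun z : ℂ => ‖z‖) '' ({z | φ z = 0} ∩ closedBall (0 : ℂ) t)).Finite := hfin.image _
  obtain ⟨R, hR, hRn⟩ := (Ioo_infinite hst).exists_notMem_finite hfin2
  refine ⟨R, hR.1, hR.2.trans ht1, fun z hz hz0 => hRn ⟨z, ⟨hz0, ?_⟩, by simpa using hz⟩⟩
  rw [mem_closedBall_zero_iff]
  have : ‖z‖ = R := by simpa using hz
  rw [this]
  exact hR.2.le

/-- **The coefficients of the logarithmic derivative.** -/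
theorem coeff_asymp {φ : ℂ → ℂ} (hφ : AnalyticOnNhd ℂ φ (ball 0 1)) (h0 : φ 0 ≠ 0)
    {u₀ : ℂ} (hu₀ : ‖u₀‖ < 1) (hz : φ u₀ = 0) :
    ∃ (Z : Finset ℂ) (m : ℂ → ℕ) (r R C : ℝ), Z.Nonempty ∧ 0 < r ∧ r < R ∧ R < 1 ∧ 0 ≤ C ∧
      (∀ u ∈ Z, ‖u‖ = r ∧ φ u = 0 ∧ 0 < m u) ∧
      ∀ n : ℕ, ‖tc (fun z => deriv φ z / φ z) n + ∑ u ∈ Z, (m u : ℂ) * u⁻¹ ^ (n + 1)‖ ≤ C * (R⁻¹) ^ n := by
  classical
  obtain ⟨R1, hR1, hR11, hR1z⟩ := exists_radius hφ h0 hu₀
  have hR10 : 0 < R1 := lt_of_le_of_lt (norm_nonneg _) hR1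
  have hsub : closedBall (0 : ℂ) R1 ⊆ ball 0 1 := closedBall_subset_ball hR11
  obtain ⟨S, m, g, hS, hg, hg0, hfg⟩ := Pool.Agent.W775.SR.Dom.factor hR10 (hφ.mono hsub) hR1z
  set S' := S.filter (fun u => 0 < m u) with hS'
  -- the product over `S'`
  have hfg' : ∀ z ∈ closedBall (0 : ℂ) R1, φ z = (∏ u ∈ S', (z - u) ^ (m u)) * g z := by
    intro z hz1
    rw [hfg z hz1, hS', Finset.prod_filter]
    congr 1
    refine Finset.prod_congr rfl fun u _ => ?_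
    split_ifs with h
    · rfl
    · have : m u = 0 := by omega
      rw [this, pow_zero]
  have hmemz : ∀ u ∈ S', φ u = 0 := by
    intro u hu
    have h1 : u ∈ closedBall (0 : ℂ) R1 := by
      rw [mem_closedBall_zero_iff]; exact (hS u (Finset.mem_filter.1 hu).1).le
    rw [hfg' u h1, Finset.prod_eq_zero hu, zero_mul]
    rw [sub_self, zero_pow (Finset.mem_filter.1 hu).2.ne']
  have hne0 : ∀ u ∈ S', u ≠ 0 := by
    rintro u hu rfl
    exact h0 (hmemz 0 hu)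
  have hu₀S : u₀ ∈ S' := by
    have h1 : u₀ ∈ closedBall (0 : ℂ) R1 := by rw [mem_closedBall_zero_iff]; exact hR1.le
    have h2 := hfg' u₀ h1
    rw [hz] at h2
    rcases mul_eq_zero.1 h2.symm with h3 | h3
    · obtain ⟨u, hu, h4⟩ := Finset.prod_eq_zero_iff.1 h3
      have h5 : u₀ - u = 0 := (pow_eq_zero_iff (Finset.mem_filter.1 hu).2.ne').1 h4
      rw [sub_eq_zero] at h5
      rw [h5]; exact hu
    · exact absurd h3 (hg0 _ h1)
  -- the minimal modulus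
  obtain ⟨u₁, hu₁, hmin⟩ := Finset.exists_min_image S' (fun u => ‖u‖) ⟨u₀, hu₀S⟩
  set r := ‖u₁‖ with hr
  have hr0 : 0 < r := norm_pos_iff.2 (hne0 u₁ hu₁)
  set Z := S'.filter (fun u => ‖u‖ = r) with hZ
  set W := S'.filter (fun u => ‖u‖ ≠ r) with hW
  have hrR1 : r < R1 := hS u₁ (Finset.mem_filter.1 hu₁).1
  -- the second radius
  have hR2 : ∃ R2 : ℝ, r < R2 ∧ R2 ≤ R1 ∧ ∀ u ∈ W, R2 ≤ ‖u‖ := by
    by_cases hWn : W.Nonempty
    · obtain ⟨u₂, hu₂, hmin2⟩ := Finset.exists_min_image W (fun u => ‖u‖) hWn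
      have h1 := Finset.mem_filter.1 hu₂
      refine ⟨min ‖u₂‖ R1, lt_min (lt_of_le_of_ne (hmin _ h1.1) (Ne.symm h1.2)) hrR1, min_le_right _ _,
        fun u hu => (min_le_left _ _).trans (hmin2 u hu)⟩
    · rw [Finset.not_nonempty_iff_eq_empty] at hWn
      exact ⟨R1, hrR1, le_rfl, fun u hu => by rw [hWn] at hu; exact absurd hu (Finset.notMem_empty _)⟩
  obtain ⟨R2, hrR2, hR21, hWR⟩ := hR2
  have hR20 : 0 < R2 := hr0.trans hrR2
  -- the logarithmic derivative of `g`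
  have hgl : AnalyticOnNhd ℂ (fun z => deriv g z / g z) (closedBall 0 R1) := fun z hz1 =>
    (hg z hz1).deriv.div (hg z hz1) (hg0 z hz1)
  obtain ⟨C1, hC10, hC1⟩ := tc_le hR10 hgl
  -- the decomposition near `0`
  have hdec : (fun z => deriv φ z / φ z) =ᶠ[𝓝 0]
      fun z => (∑ u ∈ S', (m u : ℂ) * (z - u)⁻¹) + deriv g z / g z := by
    have hball : ball (0 : ℂ) r ∈ 𝓝 (0 : ℂ) := ball_mem_nhds 0 hr0
    filter_upwards [hball] with z hz1
    have hz2 : ‖z‖ < r := by simpa using hz1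
    have hzR : z ∈ ball (0 : ℂ) R1 := by rw [mem_ball_zero_iff]; exact hz2.trans hrR1
    have hev : φ =ᶠ[𝓝 z] fun y => (∏ u ∈ S', (y - u) ^ (m u)) * g y := by
      filter_upwards [isOpen_ball.mem_nhds hzR] with y hy
      exact hfg' y (ball_subset_closedBall hy)
    have hzne : ∀ u ∈ S', z - u ≠ 0 := by
      intro u hu h
      rw [sub_eq_zero] at h
      have := hmin u hu
      rw [← h] at this
      exact absurd hz2 (not_lt.2 this)
    have hgz := hg z (ball_subset_closedBall hzR)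
    have h1 : logDeriv φ z = logDeriv (fun y => (∏ u ∈ S', (y - u) ^ (m u)) * g y) z := by
      rw [logDeriv_apply, logDeriv_apply, hev.deriv_eq, hev.eq_of_nhds]
    have h2 : logDeriv (fun y => (∏ u ∈ S', (y - u) ^ (m u)) * g y) z =
        logDeriv (fun y => ∏ u ∈ S', (y - u) ^ (m u)) z + logDeriv g z := by
      refine logDeriv_mul z ?_ (hg0 z (ball_subset_closedBall hzR)) (by fun_prop) hgz.differentiableAt
      exact Finset.prod_ne_zero_iff.2 fun u hu => pow_ne_zero _ (hzne u hu)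
    have h3 : logDeriv (fun y => ∏ u ∈ S', (y - u) ^ (m u)) z = ∑ u ∈ S', (m u : ℂ) * (z - u)⁻¹ := by
      rw [logDeriv_prod (f := fun (u y : ℂ) => (y - u) ^ (m u)) (fun u hu => pow_ne_zero _ (hzne u hu))
        (fun u _ => by fun_prop)]
      refine Finset.sum_congr rfl fun u _ => ?_
      rw [logDeriv_fun_pow (f := fun y : ℂ => y - u) (by fun_prop), logDeriv_apply]
      simp
    show deriv φ z / φ z = _
    rw [← logDeriv_apply, h1, h2, h3, logDeriv_apply]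
  -- the coefficients
  have hcoef : ∀ n, tc (fun z => deriv φ z / φ z) n =
      -(∑ u ∈ S', (m u : ℂ) * u⁻¹ ^ (n + 1)) + tc (fun z => deriv g z / g z) n := by
    intro n
    rw [tc_congr hdec n, tc_add ?_ (hgl 0 (mem_closedBall_self hR10.le)) n, tc_sum ?_ n]
    · congr 1
      rw [← Finset.sum_neg_distrib]
      refine Finset.sum_congr rfl fun u hu => ?_
      rw [tc_const_mul, tc_inv (hne0 u hu)]
      ring
    · intro u hu
      exact analyticAt_const.mul (an_inv (hne0 u hu))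
    · have : AnalyticAt ℂ (fun z => ∑ u ∈ S', (m u : ℂ) * (z - u)⁻¹) 0 := by
        refine Finset.analyticAt_fun_sum _ fun u hu => ?_
        exact analyticAt_const.mul (an_inv (hne0 u hu))
      exact this
  refine ⟨Z, m, r, R2, (∑ u ∈ W, (m u : ℝ) * R2⁻¹) + C1, ⟨u₁, Finset.mem_filter.2 ⟨hu₁, rfl⟩⟩, hr0, hrR2,
    hR21.trans_lt hR11, by positivity, fun u hu => ?_, fun n => ?_⟩
  · have h1 := Finset.mem_filter.1 hu
    exact ⟨h1.2, hmemz u h1.1, (Finset.mem_filter.1 h1.1).2⟩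
  · have hsplit : ∑ u ∈ S', (m u : ℂ) * u⁻¹ ^ (n + 1) =
        ∑ u ∈ Z, (m u : ℂ) * u⁻¹ ^ (n + 1) + ∑ u ∈ W, (m u : ℂ) * u⁻¹ ^ (n + 1) := by
      rw [hZ, hW]
      exact (Finset.sum_filter_add_sum_filter_not S' _ _).symm
    rw [hcoef, hsplit]
    have e1 : -(∑ u ∈ Z, (m u : ℂ) * u⁻¹ ^ (n + 1) + ∑ u ∈ W, (m u : ℂ) * u⁻¹ ^ (n + 1)) +
        tc (fun z => deriv g z / g z) n + ∑ u ∈ Z, (m u : ℂ) * u⁻¹ ^ (n + 1) =
        -(∑ u ∈ W, (m u : ℂ) * u⁻¹ ^ (n + 1)) + tc (fun z => deriv g z / g z) n := by ring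
    rw [e1]
    have h2 : ‖∑ u ∈ W, (m u : ℂ) * u⁻¹ ^ (n + 1)‖ ≤ (∑ u ∈ W, (m u : ℝ) * R2⁻¹) * R2⁻¹ ^ n := by
      rw [Finset.sum_mul]
      refine (norm_sum_le _ _).trans (Finset.sum_le_sum fun u hu => ?_)
      rw [norm_mul, norm_pow, norm_inv, Complex.norm_natCast, mul_assoc, ← pow_succ']
      have h3 : ‖u‖⁻¹ ≤ R2⁻¹ := inv_anti₀ hR20 (hWR u hu)
      gcongr
    have h4 : ‖tc (fun z => deriv g z / g z) n‖ ≤ C1 * R2⁻¹ ^ n := by
      refine (hC1 n).trans ?_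
      have h3 : R1⁻¹ ≤ R2⁻¹ := inv_anti₀ hR20 hR21
      gcongr
    calc _ ≤ ‖-(∑ u ∈ W, (m u : ℂ) * u⁻¹ ^ (n + 1))‖ + ‖tc (fun z => deriv g z / g z) n‖ := norm_add_le _ _
      _ ≤ (∑ u ∈ W, (m u : ℝ) * R2⁻¹) * R2⁻¹ ^ n + C1 * R2⁻¹ ^ n := by
          rw [norm_neg]; exact add_le_add h2 h4
      _ = _ := by ring

end Pool.Agent.X25.Li
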