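import Pool.Agent.X25.Li.Main

/-! The zeta function has no zeros in the strip at heights `|t| ≤ 5.47`. -/

set_option autoImplicit false

namespace Pool.Agent.X25.Li

open Filter Topology
open Pool.Agent.H24R2.JP (XX FF gam)

theorem bern_six : bernoulli 6 = 1 / 42 := by
  rw [bernoulli_eq_bernoulli'_of_ne_one (by norm_num), bernoulli'_def]
  norm_num [Finset.sum_range_succ, bernoulli'_zero, bernoulli'_one, bernoulli'_two, bernoulli'_three,
    bernoulli'_four, Nat.choose]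
  have h5 : bernoulli' 5 = 0 := by
    rw [bernoulli'_def]
    norm_num [Finset.sum_range_succ, bernoulli'_zero, bernoulli'_one, bernoulli'_two, bernoulli'_three,
      bernoulli'_four, Nat.choose]
  rw [h5]; norm_num

theorem zeta_six : riemannZeta 6 = (Real.pi : ℂ) ^ 6 / 945 := by
  have h := riemannZeta_two_mul_nat (k := 3) (by norm_num)
  rw [show (2 * 3 : ℕ) = 6 by norm_num, bern_six] at h
  norm_num [Nat.factorial] at h
  rw [h]; ring

theorem FF_val : FF ((121 / 4 : ℝ) : ℂ) = ((16 * Real.pi ^ 3 / 63 : ℝ) : ℂ) := by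
  have h1 : (((121 / 4 : ℝ)) : ℂ) = ((6 : ℂ) - 1 / 2) ^ 2 := by push_cast; norm_num
  rw [h1, Pool.Agent.H24R2.JP.B1h.FF_sq, XX_xi]
  unfold xi
  have hL : completedRiemannZeta 6 = completedRiemannZeta₀ 6 - 1 / 6 - 1 / (1 - 6) := completedRiemannZeta_eq 6
  have h2 : riemannZeta 6 = completedRiemannZeta 6 / Complex.Gammaℝ 6 :=
    riemannZeta_def_of_ne_zero (by norm_num)
  have h3 : Complex.Gammaℝ 6 = 2 / (Real.pi : ℂ) ^ 3 := by
    rw [Complex.Gammaℝ_def]
    have e1 : (6 : ℂ) / 2 = ((2 : ℕ) : ℂ) + 1 := by norm_num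
    have e2 : Complex.Gamma (6 / 2) = 2 := by
      rw [e1, Complex.Gamma_nat_eq_factorial]; norm_num [Nat.factorial]
    have e3 : ((Real.pi : ℂ)) ^ (-(6 : ℂ) / 2) = ((Real.pi : ℂ) ^ 3)⁻¹ := by
      rw [show -(6 : ℂ) / 2 = ((-3 : ℤ) : ℂ) by norm_num, Complex.cpow_intCast, zpow_neg]
      norm_cast
    rw [e2, e3]; ring
  have hpi : (Real.pi : ℂ) ≠ 0 := by exact_mod_cast Real.pi_ne_zero
  have hG : Complex.Gammaℝ 6 ≠ 0 := by
    rw [h3]; exact div_ne_zero two_ne_zero (pow_ne_zero _ hpi)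
  have h4 : completedRiemannZeta 6 = 2 * (Real.pi : ℂ) ^ 3 / 945 := by
    have : completedRiemannZeta 6 = riemannZeta 6 * Complex.Gammaℝ 6 := by
      rw [h2]; field_simp
    rw [this, zeta_six, h3]
    field_simp
  have h5 : completedRiemannZeta₀ 6 = 2 * (Real.pi : ℂ) ^ 3 / 945 + 1 / 6 + 1 / (1 - 6) := by
    linear_combination -hL + h4
  rw [h5]
  push_cast
  ring

theorem FF_quarter : FF ((1 / 4 : ℝ) : ℂ) = 4 := by
  have h1 : (((1 / 4 : ℝ)) : ℂ) = ((1 : ℂ) / 2) ^ 2 := by push_cast; norm_num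
  rw [h1, Pool.Agent.H24R2.JP.B1h.FF_sq, Pool.Agent.H24R2.JP.Zer.XX_half]

theorem gam_pos (k : ℕ) : 0 < gam k := (Pool.Agent.H24R2.JP.gamS Pool.Agent.H24R2.JP.mom).1 k

theorem hasSum_real {x y : ℝ} (h : FF (x : ℂ) = (y : ℂ)) :
    HasSum (fun k : ℕ => gam k / (k.factorial : ℝ) * x ^ k) y := by
  have h1 := Pool.Agent.H24R2.JP.rh2_summable Pool.Agent.H24R2.JP.b1 (x : ℂ)
  rw [h] at h1
  have h2 := Complex.hasSum_re h1
  have e : (fun k : ℕ => (((gam k : ℝ) : ℂ) / (k.factorial : ℂ) * (x : ℂ) ^ k).re) =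
      fun k : ℕ => gam k / (k.factorial : ℝ) * x ^ k := by
    funext k
    have : ((gam k : ℝ) : ℂ) / (k.factorial : ℂ) * (x : ℂ) ^ k =
        ((gam k / (k.factorial : ℝ) * x ^ k : ℝ) : ℂ) := by push_cast; ring
    rw [this, Complex.ofReal_re]
  rw [e, Complex.ofReal_re] at h2
  exact h2

/-- no zeros of `FF` in a disc -/
theorem FF_ne {w : ℂ} (hw : ‖w‖ ≤ 121 / 4) : FF w ≠ 0 := by
  intro h0
  set S : ℝ := 16 * Real.pi ^ 3 / 63 with hS
  have hS1 : S < 7.93 := by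
    rw [hS]
    have h1 := Real.pi_lt_d4
    have h2 : Real.pi ^ 3 < 3.1416 ^ 3 := pow_lt_pow_left₀ (by linarith) Real.pi_pos.le (by norm_num)
    have h3 : (16 : ℝ) * 3.1416 ^ 3 / 63 < 7.93 := by norm_num
    linarith
  have hA := hasSum_real (x := 121 / 4) (y := S) FF_val
  have hB := hasSum_real (x := 1 / 4) (y := 4) (by rw [FF_quarter]; norm_num)
  -- remove the first terms
  have hA' : HasSum (fun k : ℕ => gam (k + 1) / ((k + 1).factorial : ℝ) * (121 / 4 : ℝ) ^ (k + 1)) (S - gam 0) := by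
    have := (hasSum_nat_add_iff' 1).2 hA
    simpa using this
  have hB' : HasSum (fun k : ℕ => gam (k + 1) / ((k + 1).factorial : ℝ) * (1 / 4 : ℝ) ^ (k + 1)) (4 - gam 0) := by
    have := (hasSum_nat_add_iff' 1).2 hB
    simpa using this
  have hcmp : 4 - gam 0 ≤ 1 / 121 * (S - gam 0) := by
    refine hasSum_le (fun k => ?_) hB' (hA'.mul_left (1 / 121))
    have h1 : (1 / 4 : ℝ) ^ (k + 1) ≤ 1 / 121 * (121 / 4) ^ (k + 1) := by
      rw [show (121 / 4 : ℝ) = 121 * (1 / 4) by norm_num, mul_pow]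
      have h2 : (1 : ℝ) ≤ 121 ^ k := one_le_pow₀ (by norm_num)
      have h3 : (0 : ℝ) < (1 / 4) ^ (k + 1) := by positivity
      rw [pow_succ (121 : ℝ) k]
      nlinarith
    have h2 : 0 ≤ gam (k + 1) / ((k + 1).factorial : ℝ) := by
      have := gam_pos (k + 1); positivity
    calc _ ≤ gam (k + 1) / ((k + 1).factorial : ℝ) * (1 / 121 * (121 / 4) ^ (k + 1)) :=
          mul_le_mul_of_nonneg_left h1 h2
      _ = _ := by ring
  -- the zero
  have hw1 := Pool.Agent.H24R2.JP.rh2_summable Pool.Agent.H24R2.JP.b1 w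
  rw [h0] at hw1
  have hw2 : HasSum (fun k : ℕ => ((gam (k + 1) : ℝ) : ℂ) / ((k + 1).factorial : ℂ) * w ^ (k + 1)) (0 - (gam 0 : ℂ)) := by
    have := (hasSum_nat_add_iff' 1).2 hw1
    simpa using this
  have hcmp2 : gam 0 ≤ S - gam 0 := by
    have h1 : ‖(0 - (gam 0 : ℂ))‖ ≤ S - gam 0 := by
      rw [← hw2.tsum_eq]
      refine tsum_of_norm_bounded hA' fun k => ?_
      rw [norm_mul, norm_div, norm_pow, Complex.norm_real, Complex.norm_natCast,
        Real.norm_of_nonneg (gam_pos _).le]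
      have := gam_pos (k + 1)
      gcongr
    rwa [zero_sub, norm_neg, Complex.norm_real, Real.norm_of_nonneg (gam_pos 0).le] at h1
  linarith

/-- the heights of the zeros in the strip -/
theorem height {ρ : ℂ} (h : riemannZeta ρ = 0) (h0 : 0 < ρ.re) (h1 : ρ.re < 1) : 30 < ρ.im ^ 2 := by
  by_contra hcon
  push Not at hcon
  have hρ0 : ρ ≠ 0 := by rintro rfl; simp at h0
  have hρ1 : ρ ≠ 1 := by rintro rfl; simp at h1
  have hL : completedRiemannZeta ρ = 0 := by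
    rw [riemannZeta_def_of_ne_zero hρ0] at h
    rcases div_eq_zero_iff.mp h with h | h
    · exact h
    · exfalso
      obtain ⟨n, hn⟩ := Complex.Gammaℝ_eq_zero_iff.mp h
      have h2 : ρ.re = -(2 * n : ℝ) := by rw [hn]; simp
      have h3 : (0 : ℝ) ≤ n := Nat.cast_nonneg n
      linarith
  have hxi : xi ρ = 0 := by
    unfold xi
    have h4 : completedRiemannZeta₀ ρ = 1 / ρ + 1 / (1 - ρ) := by
      have h5 := completedRiemannZeta_eq ρ
      rw [hL] at h5
      linear_combination -h5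
    rw [h4]
    have h6 : (1 : ℂ) - ρ ≠ 0 := sub_ne_zero.mpr (Ne.symm hρ1)
    field_simp
    ring
  have hFF : FF ((ρ - 1 / 2) ^ 2) = 0 := by
    rw [Pool.Agent.H24R2.JP.B1h.FF_sq, XX_xi, hxi, mul_zero]
  refine FF_ne ?_ hFF
  rw [norm_pow, ← Complex.normSq_eq_norm_sq, Complex.normSq_apply]
  have e1 : (ρ - 1 / 2).re = ρ.re - 1 / 2 := by simp
  have e2 : (ρ - 1 / 2).im = ρ.im := by simp
  rw [e1, e2]
  nlinarith

/-- `q ≤ 34` is admissible -/
theorem adm_small {q : ℕ} (hq : 1 ≤ q) (hq2 : q ≤ 34) : Adm q := by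
  refine ⟨hq, Or.inr fun ρ h h0 h1 _ => ?_⟩
  have h2 := height h h0 h1
  have h3 : 5.477 < |ρ.im| := by
    rw [← Real.sqrt_sq_eq_abs]
    apply Real.lt_sqrt_of_sq_lt
    norm_num
    linarith
  have h4 := Real.pi_gt_d4
  have h5 : (q : ℝ) ≤ 34 := by exact_mod_cast hq2
  nlinarith

end Pool.Agent.X25.Li
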