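import Pool.Agent.X25.Li.Xi

/-! Li's criterion on sparse arithmetic blocks. -/

set_option autoImplicit false

namespace Pool.Agent.X25.Li

open Metric Set Filter Topology

/-- `q` is admissible: `q = 1`, or every zero off the line has height larger than `q / (2 π)` -/
def Adm (q : ℕ) : Prop :=
  1 ≤ q ∧ (q = 1 ∨ ∀ ρ : ℂ, riemannZeta ρ = 0 → 0 < ρ.re → ρ.re < 1 → ρ.re ≠ 1 / 2 →
    (q : ℝ) < 2 * Real.pi * |ρ.im|)

theorem phi_zero_ne : phi 0 ≠ 0 := by
  rw [phi_zero]; norm_num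

theorem li_eq (n : ℕ) : li n = (tc (fun z => deriv phi z / phi z) (n - 1)).re := rfl

/-- both signs with positive density in all long blocks, if the Riemann hypothesis fails -/
theorem fail {q : ℕ} (hq : Adm q) (h : ¬ RiemannHypothesis) :
    ∃ c δ : ℝ, 0 < c ∧ 0 < δ ∧ ∃ N : ℕ, ∀ b K : ℕ, N ≤ b → N ≤ K →
      δ * K ≤ (((Finset.range K).filter fun j =>
        li (q * (b + j)) ≤ -Real.exp (c * (q * (b + j) : ℕ))).card : ℝ) ∧
      δ * K ≤ (((Finset.range K).filter fun j =>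
        Real.exp (c * (q * (b + j) : ℕ)) ≤ li (q * (b + j))).card : ℝ) := by
  obtain ⟨hq1, hq2⟩ := hq
  have hz : ∃ u : ℂ, ‖u‖ < 1 ∧ phi u = 0 := by
    by_contra hcon
    push Not at hcon
    exact h (rh_of_phi hcon)
  refine blocks phi_an phi_zero_ne hz hq1 fun u hu hu0 => ?_
  obtain ⟨ρ, hρ, h1, h2, rfl⟩ := zero_of_phi hu hu0
  rcases hq2 with rfl | hq2
  · exact angle_one h2 hu
  · exact angle (by linarith) h2 hq1 (hq2 ρ hρ (by linarith) h2 (by linarith [h1] : ρ.re > 1 / 2).ne')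

/-- subexponential growth under the Riemann hypothesis -/
theorem li_upper (hRH : RiemannHypothesis) {ε : ℝ} (hε : 0 < ε) :
    ∃ N : ℕ, ∀ n : ℕ, N ≤ n → li n ≤ Real.exp (ε * n) := by
  -- no zeros in the disc
  have hne : ∀ z ∈ ball (0 : ℂ) 1, phi z ≠ 0 := by
    intro z hz h
    obtain ⟨ρ, hρ, h1, h2, -⟩ := zero_of_phi (by simpa using hz) h
    have h3 := hRH ρ hρ (by
      rintro ⟨n, hn⟩
      rw [hn] at h1
      have e : (-2 * ((n : ℂ) + 1)) = ((-2 * ((n : ℝ) + 1) : ℝ) : ℂ) := by push_cast; ring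
      rw [e, Complex.ofReal_re] at h1
      have : (0 : ℝ) ≤ n := Nat.cast_nonneg n
      linarith) (by
      rintro rfl
      rw [Complex.one_re] at h2
      exact lt_irrefl _ h2)
    linarith
  set R : ℝ := Real.exp (-(ε / 2)) with hR
  have hR0 : 0 < R := Real.exp_pos _
  have hR1 : R < 1 := by rw [hR, Real.exp_lt_one_iff]; linarith
  have han : AnalyticOnNhd ℂ (fun z => deriv phi z / phi z) (closedBall 0 R) := fun z hz =>
    (phi_an z (closedBall_subset_ball hR1 hz)).deriv.div (phi_an z (closedBall_subset_ball hR1 hz))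
      (hne z (closedBall_subset_ball hR1 hz))
  obtain ⟨C, hC0, hC⟩ := tc_le hR0 han
  obtain ⟨N, hN⟩ := exists_nat_ge (Real.log (C + 1) / (ε / 2))
  refine ⟨N, fun n hn => ?_⟩
  rw [li_eq]
  refine (Complex.re_le_norm _).trans ((hC (n - 1)).trans ?_)
  have h1 : (R⁻¹) ^ (n - 1) ≤ Real.exp (ε / 2 * n) := by
    rw [hR, ← Real.exp_neg, neg_neg, ← Real.exp_nat_mul]
    apply Real.exp_le_exp.2
    have : ((n - 1 : ℕ) : ℝ) ≤ n := by exact_mod_cast Nat.sub_le n 1
    nlinarith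
  have h2 : C ≤ Real.exp (ε / 2 * n) := by
    have h3 : Real.log (C + 1) ≤ ε / 2 * n := by
      have h4 : (N : ℝ) ≤ n := by exact_mod_cast hn
      rw [div_le_iff₀ (by positivity)] at hN
      nlinarith
    have h5 := (Real.log_le_iff_le_exp (by linarith)).1 h3
    linarith
  calc C * (R⁻¹) ^ (n - 1) ≤ Real.exp (ε / 2 * n) * Real.exp (ε / 2 * n) :=
        mul_le_mul h2 h1 (by positivity) (Real.exp_pos _).le
    _ = Real.exp (ε * n) := by rw [← Real.exp_add]; congr 1; ring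

/-- every long block contains a very negative coefficient -/
theorem fail_neg {q : ℕ} (hq : Adm q) (h : ¬ RiemannHypothesis) :
    ∃ c : ℝ, 0 < c ∧ ∃ N : ℕ, ∀ b : ℕ, N ≤ b → (∃ j < N, li (q * (b + j)) ≤ -Real.exp (c * (q * (b + j) : ℕ))) ∧
      ∃ j < N, Real.exp (c * (q * (b + j) : ℕ)) ≤ li (q * (b + j)) := by
  obtain ⟨c, δ, hc, hδ, N, hN⟩ := fail hq h
  refine ⟨c, hc, N + 1, fun b hb => ?_⟩
  obtain ⟨h1, h2⟩ := hN b (N + 1) (by omega) (by omega)
  have hpos : 0 < δ * ((N + 1 : ℕ) : ℝ) := by positivity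
  constructor
  · have h3 : 0 < ((Finset.range (N + 1)).filter fun j =>
        li (q * (b + j)) ≤ -Real.exp (c * (q * (b + j) : ℕ))).card := by
      have : (0 : ℝ) < _ := hpos.trans_le h1
      exact_mod_cast this
    obtain ⟨j, hj⟩ := Finset.card_pos.1 h3
    obtain ⟨hj1, hj2⟩ := Finset.mem_filter.1 hj
    exact ⟨j, Finset.mem_range.1 hj1, hj2⟩
  · have h3 : 0 < ((Finset.range (N + 1)).filter fun j =>
        Real.exp (c * (q * (b + j) : ℕ)) ≤ li (q * (b + j))).card := by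
      have : (0 : ℝ) < _ := hpos.trans_le h2
      exact_mod_cast this
    obtain ⟨j, hj⟩ := Finset.card_pos.1 h3
    obtain ⟨hj1, hj2⟩ := Finset.mem_filter.1 hj
    exact ⟨j, Finset.mem_range.1 hj1, hj2⟩

/-- **Li's criterion on sparse arithmetic blocks.** -/
theorem criterion {q : ℕ} (hq : Adm q) : List.TFAE [
    RiemannHypothesis,
    ∀ n : ℕ, 1 ≤ n → 0 ≤ li n,
    ∀ K : ℕ, ∃ b : ℕ, 1 ≤ b ∧ ∀ j < K, 0 ≤ li (q * (b + j)),
    ∀ ε : ℝ, 0 < ε → ∀ K : ℕ, ∃ b : ℕ, 1 ≤ b ∧ ∀ j < K, -Real.exp (ε * (q * (b + j) : ℕ)) ≤ li (q * (b + j)),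
    ∀ ε : ℝ, 0 < ε → ∀ K : ℕ, ∃ b : ℕ, 1 ≤ b ∧ ∀ j < K, li (q * (b + j)) ≤ Real.exp (ε * (q * (b + j) : ℕ)),
    ∀ δ : ℝ, 0 < δ → ∀ N : ℕ, ∃ K : ℕ, N ≤ K ∧
      (((Finset.Icc 1 K).filter fun k => li (q * k) < 0).card : ℝ) ≤ δ * K] := by
  have hq1 := hq.1
  tfae_have 1 → 2 := fun h n _ => li_nonneg h n
  tfae_have 2 → 3 := fun h K => ⟨1, le_rfl, fun j _ => h _ (Nat.one_le_iff_ne_zero.2
    (Nat.mul_ne_zero (by omega) (by omega)))⟩
  tfae_have 3 → 4 := by
    intro h ε _ K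
    obtain ⟨b, hb, h1⟩ := h K
    exact ⟨b, hb, fun j hj => (neg_nonpos.2 (Real.exp_pos _).le).trans (h1 j hj)⟩
  tfae_have 4 → 1 := by
    intro h
    by_contra hRH
    obtain ⟨c, hc, N, hN⟩ := fail_neg hq hRH
    obtain ⟨b, -, hb⟩ := h (c / 2) (by positivity) (N + N)
    obtain ⟨⟨j, hj, h1⟩, -⟩ := hN (b + N) (by omega)
    have h2 := hb (N + j) (by omega)
    have e : b + (N + j) = b + N + j := by ring
    rw [e] at h2
    have h3 := h2.trans h1
    have h4 : Real.exp (c * (q * (b + N + j) : ℕ)) ≤ Real.exp (c / 2 * (q * (b + N + j) : ℕ)) := by linarith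
    rw [Real.exp_le_exp] at h4
    have h5 : 0 < ((q * (b + N + j) : ℕ) : ℝ) := by
      have : 0 < N := by omega
      have : 0 < q * (b + N + j) := Nat.mul_pos (by omega) (by omega)
      exact_mod_cast this
    nlinarith
  tfae_have 1 → 5 := by
    intro h ε hε K
    obtain ⟨N, hN⟩ := li_upper h hε
    refine ⟨N + 1, by omega, fun j _ => hN _ ?_⟩
    calc N ≤ 1 * (N + 1 + j) := by omega
      _ ≤ q * (N + 1 + j) := Nat.mul_le_mul_right _ hq1
  tfae_have 5 → 1 := by
    intro h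
    by_contra hRH
    obtain ⟨c, hc, N, hN⟩ := fail_neg hq hRH
    obtain ⟨b, -, hb⟩ := h (c / 2) (by positivity) (N + N)
    obtain ⟨-, j, hj, h1⟩ := hN (b + N) (by omega)
    have h2 := hb (N + j) (by omega)
    have e : b + (N + j) = b + N + j := by ring
    rw [e] at h2
    have h4 := h1.trans h2
    rw [Real.exp_le_exp] at h4
    have h5 : 0 < ((q * (b + N + j) : ℕ) : ℝ) := by
      have : 0 < N := by omega
      have : 0 < q * (b + N + j) := Nat.mul_pos (by omega) (by omega)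
      exact_mod_cast this
    nlinarith
  tfae_have 1 → 6 := by
    intro h δ hδ N
    refine ⟨N, le_rfl, ?_⟩
    have : (Finset.Icc 1 N).filter (fun k => li (q * k) < 0) = ∅ :=
      Finset.filter_eq_empty_iff.2 fun k _ => not_lt.2 (li_nonneg h _)
    rw [this, Finset.card_empty, Nat.cast_zero]
    positivity
  tfae_have 6 → 1 := by
    intro h
    by_contra hRH
    obtain ⟨c, δ, hc, hδ, N, hN⟩ := fail hq hRH
    obtain ⟨K, hK, h1⟩ := h (δ / 4) (by positivity) (2 * N + 2)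
    -- the block `[b, b + K')`, `b = N + 1`, `K' = K - N`
    have h2 := (hN (N + 1) (K - N) (by omega) (by omega)).1
    have h3 : ((Finset.range (K - N)).filter fun j =>
        li (q * (N + 1 + j)) ≤ -Real.exp (c * (q * (N + 1 + j) : ℕ))).card ≤
        ((Finset.Icc 1 K).filter fun k => li (q * k) < 0).card := by
      refine Finset.card_le_card_of_injOn (fun j => N + 1 + j) ?_ ?_
      · intro j hj
        obtain ⟨hj1, hj2⟩ := Finset.mem_filter.1 (Finset.mem_coe.1 hj)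
        have hj3 := Finset.mem_range.1 hj1
        have g1 : 1 ≤ N + 1 + j := by omega
        have g2 : N + 1 + j ≤ K := by omega
        refine Finset.mem_coe.2 (Finset.mem_filter.2 ⟨Finset.mem_Icc.2 ⟨g1, g2⟩, ?_⟩)
        exact lt_of_le_of_lt hj2 (neg_neg_of_pos (Real.exp_pos _))
      · intro i _ j _ hij
        have : N + 1 + i = N + 1 + j := hij
        omega
    have h4 : δ * ((K - N : ℕ) : ℝ) ≤ δ / 4 * K := h2.trans ((by exact_mod_cast h3 : (_ : ℝ) ≤ _).trans h1)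
    have h5 : ((K - N : ℕ) : ℝ) = (K : ℝ) - N := by rw [Nat.cast_sub (by omega)]
    rw [h5] at h4
    have h6 : (2 * N + 2 : ℝ) ≤ K := by exact_mod_cast hK
    nlinarith
  tfae_finish

/-- Unconditionally, a positive proportion of the coefficients is nonnegative in every long block. -/
theorem uncond {q : ℕ} (hq : Adm q) : ∃ δ : ℝ, 0 < δ ∧ ∃ N : ℕ, ∀ b K : ℕ, N ≤ b → N ≤ K →
    δ * K ≤ (((Finset.range K).filter fun j => 0 ≤ li (q * (b + j))).card : ℝ) := by
  by_cases h : RiemannHypothesis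
  · refine ⟨1, one_pos, 0, fun b K _ _ => ?_⟩
    have : (Finset.range K).filter (fun j => 0 ≤ li (q * (b + j))) = Finset.range K :=
      Finset.filter_true_of_mem fun j _ => li_nonneg h _
    rw [this, Finset.card_range, one_mul]
  · obtain ⟨c, δ, hc, hδ, N, hN⟩ := fail hq h
    refine ⟨δ, hδ, N, fun b K hb hK => (hN b K hb hK).2.trans ?_⟩
    exact_mod_cast Finset.card_le_card (Finset.monotone_filter_right _ fun j _ h1 => by
      have h2 : Real.exp (c * (q * (b + j) : ℕ)) ≤ li (q * (b + j)) := h1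
      exact (Real.exp_pos _).le.trans h2)

/-- the coefficients are real -/
theorem coeff_real (n : ℕ) : (iteratedDeriv n (fun z => deriv phi z / phi z) 0).im = 0 := by
  have h1 : ∀ z, phi ((starRingEnd ℂ) z) = (starRingEnd ℂ) (phi z) := by
    intro z
    rw [phi_eq, phi_eq, map_div₀]
    have e1 : hh ((starRingEnd ℂ) z) = (starRingEnd ℂ) (hh z) := by
      unfold hh
      simp only [map_pow, map_sub, map_div₀, map_one, map_ofNat]
    rw [e1, Pool.Agent.H24R2.JP.b1.2.2.1, map_ofNat]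
  have h2 : ∀ z, deriv phi ((starRingEnd ℂ) z) = (starRingEnd ℂ) (deriv phi z) := by
    intro z
    have := Pool.Agent.H24R2.JP.B1h.iter_conj phi h1 1 z
    simpa using this
  have h3 := Pool.Agent.H24R2.JP.B1h.iter_conj (fun z => deriv phi z / phi z) (fun z => by
    show deriv phi ((starRingEnd ℂ) z) / phi ((starRingEnd ℂ) z) = _
    rw [h1, h2, map_div₀]) n 0
  rw [map_zero] at h3
  exact Complex.conj_eq_iff_im.1 h3.symm

end Pool.Agent.X25.Li
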