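import Pool.Agent.X25.Li.Coeff

/-! Nonnegative coefficients from approximation by polynomials with negative roots. -/

set_option autoImplicit false

namespace Pool.Agent.X25.Li

open Metric Set Filter Topology Polynomial

/-- `(s - 1/2)²` for `s = 1/(1-z)` -/
noncomputable def hh (z : ℂ) : ℂ := (1 / (1 - z) - 1 / 2) ^ 2

theorem one_sub_ne {z : ℂ} (hz : z ∈ ball (0 : ℂ) 1) : 1 - z ≠ 0 := by
  intro h
  rw [mem_ball_zero_iff] at hz
  rw [sub_eq_zero] at h
  rw [← h, norm_one] at hz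
  exact lt_irrefl _ hz

theorem hh_an : AnalyticOnNhd ℂ hh (ball 0 1) := by
  intro z hz
  unfold hh
  have h1 : AnalyticAt ℂ (fun z : ℂ => 1 / (1 - z)) z :=
    analyticAt_const.div (analyticAt_const.sub analyticAt_id) (one_sub_ne hz)
  exact (h1.sub analyticAt_const).pow 2

/-- the two points on the unit circle -/
theorem exists_v (t : ℝ) (ht : 0 < t) : ∃ v v' : ℂ, ‖v‖ = 1 ∧ ‖v'‖ = 1 ∧ ∀ z : ℂ, 1 - z ≠ 0 →
    hh z + t = (1 / 4 + t) * ((z - v) * (z - v') * ((z - 1)⁻¹) ^ 2) := by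
  set γ : ℝ := Real.sqrt t with hγ
  have hγ2 : γ ^ 2 = t := Real.sq_sqrt ht.le
  set ρ : ℂ := 1 / 2 + γ * Complex.I with hρ
  set ρ' : ℂ := 1 / 2 - γ * Complex.I with hρ'
  have hconj : (starRingEnd ℂ) ρ = ρ' := by
    rw [hρ, hρ', map_add, map_mul, Complex.conj_I, Complex.conj_ofReal, map_div₀, map_one, map_ofNat]
    ring
  have hne : ρ ≠ 0 := by
    intro h
    have := congrArg Complex.re h
    rw [hρ] at this
    simp at this
  have hne' : ρ' ≠ 0 := by
    rw [← hconj]; exact (_root_.map_ne_zero _).2 hne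
  have hnorm : ‖ρ'‖ = ‖ρ‖ := by rw [← hconj, Complex.norm_conj]
  have hn0 : ‖ρ‖ ≠ 0 := norm_ne_zero_iff.2 hne
  have hI : Complex.I ^ 2 = -1 := Complex.I_sq
  have hγc : (γ : ℂ) ^ 2 = t := by exact_mod_cast hγ2
  have hprod : ρ * ρ' = 1 / 4 + t := by
    rw [hρ, hρ']
    linear_combination (-(γ : ℂ) ^ 2) * hI + hγc
  refine ⟨-(ρ' / ρ), -(ρ / ρ'), ?_, ?_, fun z hz => ?_⟩
  · rw [norm_neg, norm_div, hnorm, div_self hn0]
  · rw [norm_neg, norm_div, hnorm, div_self hn0]
  · have hz1 : z - 1 ≠ 0 := by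
      intro h; apply hz; linear_combination -h
    have e1 : (z - 1) ^ 2 * (hh z + t) = ((1 + z) / 2) ^ 2 + t * (1 - z) ^ 2 := by
      unfold hh
      have : (z - 1) ^ 2 * (1 / (1 - z) - 1 / 2) ^ 2 = ((1 + z) / 2) ^ 2 := by
        field_simp
        ring
      linear_combination this
    have e2 : (1 / 4 + (t : ℂ)) * ((z - -(ρ' / ρ)) * (z - -(ρ / ρ'))) = (ρ * z + ρ') * (ρ' * z + ρ) := by
      rw [← hprod]
      field_simp
      ring
    have e3 : (ρ * z + ρ') * (ρ' * z + ρ) = ((1 + z) / 2) ^ 2 + t * (1 - z) ^ 2 := by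
      have h2 : ρ ^ 2 + ρ' ^ 2 = 1 / 2 - 2 * t := by
        rw [hρ, hρ']
        linear_combination (2 * (γ : ℂ) ^ 2) * hI - 2 * hγc
      linear_combination (z ^ 2 + 1) * hprod + z * h2
    have h3 : (z - 1) ^ 2 ≠ 0 := pow_ne_zero _ hz1
    apply mul_left_cancel₀ h3
    rw [e1, ← e3, ← e2]
    field_simp

theorem fac_ne {t : ℝ} (ht : 0 < t) {z : ℂ} (hz : z ∈ ball (0 : ℂ) 1) : hh z + t ≠ 0 := by
  obtain ⟨v, v', hv, hv', h⟩ := exists_v t ht
  rw [h z (one_sub_ne hz)]
  rw [mem_ball_zero_iff] at hz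
  have h1 : z - v ≠ 0 := by
    intro h; rw [sub_eq_zero] at h; rw [h, hv] at hz; exact lt_irrefl _ hz
  have h2 : z - v' ≠ 0 := by
    intro h; rw [sub_eq_zero] at h; rw [h, hv'] at hz; exact lt_irrefl _ hz
  have h3 : z - 1 ≠ 0 := by
    intro h; rw [sub_eq_zero] at h; rw [h, norm_one] at hz; exact lt_irrefl _ hz
  have h4 : (1 / 4 + (t : ℂ)) ≠ 0 := by
    have : (1 / 4 + (t : ℂ)) = ((1 / 4 + t : ℝ) : ℂ) := by push_cast; ring
    rw [this]
    exact_mod_cast (by positivity : (1 / 4 + t : ℝ) ≠ 0)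
  positivity

theorem tc_zero (n : ℕ) : tc (fun _ => (0 : ℂ)) n = 0 := by
  unfold tc
  have : iteratedDeriv n (fun _ : ℂ => (0 : ℂ)) 0 = 0 := by
    rw [iteratedDeriv_const]; split_ifs <;> rfl
  rw [this, zero_div]

/-- one factor -/
theorem fac_pos {t : ℝ} (ht : 0 < t) (n : ℕ) : 0 ≤ (tc (logDeriv fun z => hh z + t) n).re := by
  obtain ⟨v, v', hv, hv', h⟩ := exists_v t ht
  have hv0 : v ≠ 0 := by intro h0; rw [h0, norm_zero] at hv; exact zero_ne_one hv
  have hv0' : v' ≠ 0 := by intro h0; rw [h0, norm_zero] at hv'; exact zero_ne_one hv'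
  have h4 : (1 / 4 + (t : ℂ)) ≠ 0 := by
    have : (1 / 4 + (t : ℂ)) = ((1 / 4 + t : ℝ) : ℂ) := by push_cast; ring
    rw [this]
    exact_mod_cast (by positivity : (1 / 4 + t : ℝ) ≠ 0)
  have hev : (logDeriv fun z => hh z + t) =ᶠ[𝓝 0]
      fun z => ((z - v)⁻¹ + (z - v')⁻¹) + (-2 : ℂ) * (z - 1)⁻¹ := by
    filter_upwards [ball_mem_nhds (0 : ℂ) one_pos] with z hz
    have hzz := hz
    rw [mem_ball_zero_iff] at hz
    have h1 : z - v ≠ 0 := by
      intro h; rw [sub_eq_zero] at h; rw [h, hv] at hz; exact lt_irrefl _ hz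
    have h2 : z - v' ≠ 0 := by
      intro h; rw [sub_eq_zero] at h; rw [h, hv'] at hz; exact lt_irrefl _ hz
    have h3 : z - 1 ≠ 0 := by
      intro h; rw [sub_eq_zero] at h; rw [h, norm_one] at hz; exact lt_irrefl _ hz
    have he : (fun z => hh z + (t : ℂ)) =ᶠ[𝓝 z]
        fun z => (1 / 4 + (t : ℂ)) * ((z - v) * (z - v') * ((z - 1)⁻¹) ^ 2) := by
      filter_upwards [isOpen_ball.mem_nhds hzz] with y hy
      exact h y (one_sub_ne hy)
    have e1 : logDeriv (fun z => hh z + (t : ℂ)) z =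
        logDeriv (fun z => (1 / 4 + (t : ℂ)) * ((z - v) * (z - v') * ((z - 1)⁻¹) ^ 2)) z := by
      rw [logDeriv_apply, logDeriv_apply, he.deriv_eq, he.eq_of_nhds]
    have d3 : DifferentiableAt ℂ (fun z : ℂ => (z - 1)⁻¹) z := by
      exact (differentiableAt_id.sub_const 1).inv h3
    rw [e1, logDeriv_const_mul z _ h4,
      logDeriv_mul (f := fun z : ℂ => (z - v) * (z - v')) (g := fun z : ℂ => ((z - 1)⁻¹) ^ 2) z (mul_ne_zero h1 h2)
        (pow_ne_zero _ (inv_ne_zero h3)) (by fun_prop) (d3.pow 2),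
      logDeriv_mul (f := fun z : ℂ => z - v) (g := fun z : ℂ => z - v') z h1 h2 (by fun_prop) (by fun_prop),
      logDeriv_fun_pow (f := fun z : ℂ => (z - 1)⁻¹) d3]
    have g1 : logDeriv (fun z : ℂ => z - v) z = (z - v)⁻¹ := by rw [logDeriv_apply]; simp
    have g2 : logDeriv (fun z : ℂ => z - v') z = (z - v')⁻¹ := by rw [logDeriv_apply]; simp
    have g3 : logDeriv (fun z : ℂ => (z - 1)⁻¹) z = -(z - 1)⁻¹ := by
      have hd : HasDerivAt (fun z : ℂ => (z - 1)⁻¹) (-1 / (z - 1) ^ 2) z := by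
        exact ((hasDerivAt_id' z).sub_const (1 : ℂ)).inv h3
      rw [logDeriv_apply, hd.deriv]
      field_simp
    rw [g1, g2, g3]
    push_cast
    ring
  have A1 : AnalyticAt ℂ (fun z : ℂ => (z - v)⁻¹ + (z - v')⁻¹) 0 := (an_inv hv0).add (an_inv hv0')
  have A2 : AnalyticAt ℂ (fun z : ℂ => (-2 : ℂ) * (z - 1)⁻¹) 0 :=
    analyticAt_const.mul (an_inv one_ne_zero)
  rw [tc_congr hev, tc_add A1 A2,
    tc_add (an_inv hv0) (an_inv hv0'), tc_const_mul, tc_inv hv0, tc_inv hv0', tc_inv one_ne_zero]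
  have r1 : (v⁻¹ ^ (n + 1)).re ≤ 1 := by
    refine (Complex.re_le_norm _).trans ?_
    rw [norm_pow, norm_inv, hv, inv_one, one_pow]
  have r2 : (v'⁻¹ ^ (n + 1)).re ≤ 1 := by
    refine (Complex.re_le_norm _).trans ?_
    rw [norm_pow, norm_inv, hv', inv_one, one_pow]
  have e : (-v⁻¹ ^ (n + 1) + -v'⁻¹ ^ (n + 1) + -2 * -(1 : ℂ)⁻¹ ^ (n + 1)).re =
      2 - (v⁻¹ ^ (n + 1)).re - (v'⁻¹ ^ (n + 1)).re := by
    rw [inv_one, one_pow]
    simp only [Complex.add_re, Complex.neg_re, Complex.mul_re, Complex.one_re, Complex.one_im, Complex.neg_im]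
    norm_num
    ring
  rw [e]
  linarith

/-- products of factors -/
theorem prod_pos (m : Multiset ℂ) (hm : ∀ x ∈ m, ∃ t : ℝ, 0 < t ∧ x = -(t : ℂ)) :
    AnalyticOnNhd ℂ (fun z => (m.map fun x => hh z - x).prod) (ball 0 1) ∧
    (∀ z ∈ ball (0 : ℂ) 1, (m.map fun x => hh z - x).prod ≠ 0) ∧
    ∀ n, 0 ≤ (tc (logDeriv fun z => (m.map fun x => hh z - x).prod) n).re := by
  induction m using Multiset.induction_on with
  | empty =>
    refine ⟨?_, ?_, ?_⟩
    · simp only [Multiset.map_zero, Multiset.prod_zero]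
      exact analyticOnNhd_const
    · intro z _; simp
    · intro n
      have : (logDeriv fun z : ℂ => ((0 : Multiset ℂ).map fun x => hh z - x).prod) = fun _ => 0 := by
        funext z
        simp [logDeriv_apply]
      rw [this, tc_zero]
      simp
  | cons a s ih =>
    obtain ⟨h1, h2, h3⟩ := ih fun x hx => hm x (Multiset.mem_cons_of_mem hx)
    obtain ⟨t, ht, rfl⟩ := hm a (Multiset.mem_cons_self a s)
    have hcons : ∀ z, ((-(t : ℂ) ::ₘ s).map fun x => hh z - x).prod =
        (hh z + t) * (s.map fun x => hh z - x).prod := by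
      intro z
      rw [Multiset.map_cons, Multiset.prod_cons, sub_neg_eq_add]
    have hA : AnalyticOnNhd ℂ (fun z => hh z + (t : ℂ)) (ball 0 1) := fun z hz =>
      (hh_an z hz).add analyticAt_const
    refine ⟨?_, ?_, fun n => ?_⟩
    · simp only [hcons]
      exact hA.mul h1
    · intro z hz
      rw [hcons]
      exact mul_ne_zero (fac_ne ht hz) (h2 z hz)
    · simp only [hcons]
      have hev : (logDeriv fun z => (hh z + (t : ℂ)) * (s.map fun x => hh z - x).prod) =ᶠ[𝓝 0]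
          fun z => logDeriv (fun z => hh z + (t : ℂ)) z + logDeriv (fun z => (s.map fun x => hh z - x).prod) z := by
        filter_upwards [ball_mem_nhds (0 : ℂ) one_pos] with z hz
        exact logDeriv_mul z (fac_ne ht hz) (h2 z hz) (hA z hz).differentiableAt (h1 z hz).differentiableAt
      have h0 : (0 : ℂ) ∈ ball (0 : ℂ) 1 := mem_ball_self one_pos
      have a1 : AnalyticAt ℂ (logDeriv fun z => hh z + (t : ℂ)) 0 :=
        (hA 0 h0).deriv.div (hA 0 h0) (fac_ne ht h0)
      have a2 : AnalyticAt ℂ (logDeriv fun z => (s.map fun x => hh z - x).prod) 0 :=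
        (h1 0 h0).deriv.div (h1 0 h0) (h2 0 h0)
      rw [tc_congr hev, tc_add a1 a2, Complex.add_re]
      exact add_nonneg (fac_pos ht n) (h3 n)

/-- derivatives of locally uniform limits -/
theorem tendsto_iter {f : ℕ → ℂ → ℂ} {g : ℂ → ℂ} (h : TendstoLocallyUniformlyOn f g atTop (ball 0 1))
    (hf : ∀ᶠ N in atTop, AnalyticOnNhd ℂ (f N) (ball 0 1)) (n : ℕ) :
    TendstoLocallyUniformlyOn (fun N => iteratedDeriv n (f N)) (iteratedDeriv n g) atTop (ball 0 1) := by
  induction n with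
  | zero => simpa using h
  | succ n ih =>
    have h1 := ih.deriv (hf.mono fun N hN => by
      have h2 := hN.iterated_deriv n
      rw [← iteratedDeriv_eq_iterate] at h2
      exact h2.differentiableOn) isOpen_ball
    refine (h1.congr ?_).congr_right ?_
    · intro N z _
      rw [iteratedDeriv_succ]; rfl
    · intro z _
      rw [iteratedDeriv_succ]

/-- **Nonnegative coefficients.** -/
theorem pos_of_approx {F : ℂ → ℂ} (hF : Differentiable ℂ F) {P : ℕ → ℝ[X]}
    (hroot : ∀ (N : ℕ) (x : ℂ), aeval x (P N) = 0 → ∃ t : ℝ, 0 < t ∧ x = -(t : ℂ))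
    (hlim : TendstoLocallyUniformly (fun (N : ℕ) (x : ℂ) => aeval x (P N)) F atTop)
    (hne : ∀ z ∈ ball (0 : ℂ) 1, F (hh z) ≠ 0) (n : ℕ) :
    0 ≤ (tc (fun z => deriv (fun z => F (hh z)) z / F (hh z)) n).re := by
  have h0 : (0 : ℂ) ∈ ball (0 : ℂ) 1 := mem_ball_self one_pos
  -- the approximants
  set f : ℕ → ℂ → ℂ := fun N z => aeval (hh z) (P N) with hf
  have hfan : ∀ N, AnalyticOnNhd ℂ (f N) (ball 0 1) := by
    intro N z hz
    have h1 : AnalyticAt ℂ (fun x : ℂ => aeval x (P N)) (hh z) := by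
      have : Differentiable ℂ (fun x : ℂ => aeval x (P N)) := by
        have h2 : (fun x : ℂ => aeval x (P N)) = fun x => ((P N).map (algebraMap ℝ ℂ)).eval x := by
          funext x; rw [Polynomial.eval_map_algebraMap]
        rw [h2]; exact Polynomial.differentiable _
      exact this.analyticAt _
    exact h1.comp (hh_an z hz)
  have hfl : TendstoLocallyUniformlyOn f (fun z => F (hh z)) atTop (ball 0 1) := by
    have h1 := (tendstoLocallyUniformlyOn_univ.2 hlim).comp (t := ball (0 : ℂ) 1) hh (mapsTo_univ _ _)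
      hh_an.continuousOn
    exact h1
  have hgan : AnalyticOnNhd ℂ (fun z => F (hh z)) (ball 0 1) := fun z hz =>
    (hF.analyticAt (hh z)).comp (hh_an z hz)
  have hdl := hfl.deriv (Eventually.of_forall fun N => (hfan N).differentiableOn) isOpen_ball
  have hq := hdl.div₀ hfl (hgan.deriv.continuousOn) hgan.continuousOn hne
  -- eventually the approximants are products
  have hval0 : ∀ᶠ N in atTop, f N 0 ≠ 0 := by
    have h1 : Tendsto (fun N => f N 0) atTop (𝓝 (F (hh 0))) := hfl.tendsto_at h0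
    exact h1.eventually_ne (hne 0 h0)
  have hprod : ∀ᶠ N in atTop, (∀ z ∈ ball (0 : ℂ) 1, f N z ≠ 0) ∧ ∀ n, 0 ≤ (tc (logDeriv (f N)) n).re := by
    filter_upwards [hval0] with N hN
    have hPne : P N ≠ 0 := by
      intro h
      apply hN
      rw [hf]
      simp [h]
    set Q : ℂ[X] := (P N).map (algebraMap ℝ ℂ) with hQ
    have hQne : Q ≠ 0 := by
      rw [hQ]; exact (Polynomial.map_ne_zero_iff (algebraMap ℝ ℂ).injective).mpr hPne
    have hsplit : Q = Polynomial.C Q.leadingCoeff * (Q.roots.map (fun a => X - Polynomial.C a)).prod :=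
      (IsAlgClosed.splits Q).eq_prod_roots
    have hval : ∀ z : ℂ, f N z = Q.leadingCoeff * (Q.roots.map (fun r => hh z - r)).prod := by
      intro z
      have h1 : aeval (hh z) (P N) = Q.eval (hh z) := by
        rw [hQ, Polynomial.eval_map_algebraMap]
      show aeval (hh z) (P N) = _
      rw [h1]
      conv_lhs => rw [hsplit]
      rw [eval_mul, eval_C, eval_multiset_prod, Multiset.map_map]
      congr 2
      apply Multiset.map_congr rfl
      intro a _
      simp
    have hroots : ∀ r ∈ Q.roots, ∃ t : ℝ, 0 < t ∧ r = -(t : ℂ) := by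
      intro r hr
      have hr0 : aeval r (P N) = 0 := by
        have := (mem_roots hQne).mp hr
        rwa [IsRoot.def, hQ, Polynomial.eval_map_algebraMap] at this
      exact hroot N r hr0
    obtain ⟨-, h2, h3⟩ := prod_pos Q.roots hroots
    have hlc : Q.leadingCoeff ≠ 0 := leadingCoeff_ne_zero.2 hQne
    refine ⟨fun z hz => ?_, fun n => ?_⟩
    · rw [hval]; exact mul_ne_zero hlc (h2 z hz)
    · have e : f N = fun z => Q.leadingCoeff * (Q.roots.map (fun r => hh z - r)).prod := funext hval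
      have e2 : logDeriv (f N) = logDeriv fun z => (Q.roots.map (fun r => hh z - r)).prod := by
        funext z
        rw [e, logDeriv_const_mul z _ hlc]
      rw [e2]
      exact h3 n
  have hqan : ∀ᶠ N in atTop, AnalyticOnNhd ℂ ((deriv ∘ f) N / f N) (ball 0 1) := by
    filter_upwards [hprod] with N hN z hz
    exact ((hfan N).deriv z hz).div (hfan N z hz) (hN.1 z hz)
  have hit := (tendsto_iter hq hqan n).tendsto_at h0
  have hlim2 : Tendsto (fun N => (tc ((deriv ∘ f) N / f N) n).re) atTop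
      (𝓝 (tc (fun z => deriv (fun z => F (hh z)) z / F (hh z)) n).re) := by
    refine (Complex.continuous_re.tendsto _).comp ?_
    unfold tc
    exact hit.div_const _
  refine ge_of_tendsto hlim2 ?_
  filter_upwards [hprod] with N hN
  exact hN.2 n

end Pool.Agent.X25.Li
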