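import Mathlib

/-! Sums of exponentials without constant term take large negative and positive values with positive
density in all long blocks. -/

set_option autoImplicit false

namespace Pool.Agent.X25.Li

open Finset Filter Topology

/-- geometric sums -/
theorem geom_le {w : ℂ} (hw : ‖w‖ = 1) (h1 : w ≠ 1) (a K : ℕ) :
    ‖∑ j ∈ range K, w ^ (a + j)‖ ≤ 2 / ‖w - 1‖ := by
  have h2 : ∑ j ∈ range K, w ^ (a + j) = w ^ a * ((w ^ K - 1) / (w - 1)) := by
    rw [← geom_sum_eq h1, Finset.mul_sum]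
    exact Finset.sum_congr rfl fun j _ => pow_add w a j
  rw [h2, norm_mul, norm_pow, hw, one_pow, one_mul, norm_div]
  gcongr
  calc ‖w ^ K - 1‖ ≤ ‖w ^ K‖ + ‖(1 : ℂ)‖ := norm_sub_le _ _
    _ = 2 := by rw [norm_pow, hw, one_pow, norm_one]; norm_num

variable {ι : Type*}

/-- the sum of exponentials -/
noncomputable def TT (Z : Finset ι) (m : ι → ℝ) (w : ι → ℂ) (k : ℕ) : ℂ :=
  ∑ u ∈ Z, (m u : ℂ) * w u ^ k

theorem TT_le {Z : Finset ι} {m : ι → ℝ} {w : ι → ℂ} (hm : ∀ u ∈ Z, 0 ≤ m u)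
    (hw : ∀ u ∈ Z, ‖w u‖ = 1) (k : ℕ) : ‖TT Z m w k‖ ≤ ∑ u ∈ Z, m u := by
  unfold TT
  refine (norm_sum_le _ _).trans (Finset.sum_le_sum fun u hu => ?_)
  rw [norm_mul, norm_pow, hw u hu, one_pow, mul_one, Complex.norm_real, Real.norm_of_nonneg (hm u hu)]

/-- the mean is small -/
theorem mean_le {Z : Finset ι} {m : ι → ℝ} {w : ι → ℂ} (hm : ∀ u ∈ Z, 0 ≤ m u)
    (hw : ∀ u ∈ Z, ‖w u‖ = 1) (h1 : ∀ u ∈ Z, w u ≠ 1) (a K : ℕ) :
    |∑ j ∈ range K, (TT Z m w (a + j)).re| ≤ ∑ u ∈ Z, m u * (2 / ‖w u - 1‖) := by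
  have h2 : ∑ j ∈ range K, (TT Z m w (a + j)).re =
      (∑ u ∈ Z, (m u : ℂ) * ∑ j ∈ range K, w u ^ (a + j)).re := by
    rw [← Complex.re_sum]
    congr 1
    unfold TT
    rw [Finset.sum_comm]
    exact Finset.sum_congr rfl fun u _ => (Finset.mul_sum _ _ _).symm
  rw [h2]
  refine (Complex.abs_re_le_norm _).trans ((norm_sum_le _ _).trans (Finset.sum_le_sum fun u hu => ?_))
  rw [norm_mul, Complex.norm_real, Real.norm_of_nonneg (hm u hu)]
  exact mul_le_mul_of_nonneg_left (geom_le (hw u hu) (h1 u hu) a K) (hm u hu)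

/-- the lower bound of a double sum of exponentials -/
theorem pair_lower {w : ℂ} (hw : ‖w‖ = 1) (a K : ℕ) :
    -(2 / ‖w - 1‖) ≤ (∑ j ∈ range K, w ^ (a + j)).re := by
  by_cases h1 : w = 1
  · subst h1
    simp
  · exact (abs_le.1 ((Complex.abs_re_le_norm _).trans (geom_le hw h1 a K))).1

/-- the second moment is large -/
theorem second_ge {Z : Finset ι} {m : ι → ℝ} {w : ι → ℂ} (hm : ∀ u ∈ Z, 0 ≤ m u)
    (hw : ∀ u ∈ Z, ‖w u‖ = 1) {u₀ : ι} (hu₀ : u₀ ∈ Z) : ∃ B : ℝ, 0 ≤ B ∧ ∀ a K : ℕ,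
    m u₀ ^ 2 / 2 * K - B ≤ ∑ j ∈ range K, (TT Z m w (a + j)).re ^ 2 := by
  classical
  set B : ℝ := ∑ u ∈ Z, ∑ v ∈ Z, m u * m v * (2 / ‖w u * w v - 1‖ + 2 / ‖w u * (starRingEnd ℂ) (w v) - 1‖)
    with hB
  have hB0 : 0 ≤ B := Finset.sum_nonneg fun u hu => Finset.sum_nonneg fun v hv =>
    mul_nonneg (mul_nonneg (hm u hu) (hm v hv)) (by positivity)
  refine ⟨B, hB0, fun a K => ?_⟩
  -- the square of the real part
  have hsq : ∀ z : ℂ, z.re ^ 2 = ((z * z).re + (z * (starRingEnd ℂ) z).re) / 2 := by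
    intro z
    simp only [Complex.mul_re, Complex.conj_re, Complex.conj_im]
    ring
  have hexp : ∀ j, (TT Z m w (a + j)).re ^ 2 =
      ∑ u ∈ Z, ∑ v ∈ Z, m u * m v * (((w u * w v) ^ (a + j)).re +
        ((w u * (starRingEnd ℂ) (w v)) ^ (a + j)).re) / 2 := by
    intro j
    rw [hsq]
    unfold TT
    have e1 : (∑ u ∈ Z, (m u : ℂ) * w u ^ (a + j)) * (∑ u ∈ Z, (m u : ℂ) * w u ^ (a + j)) =
        ∑ u ∈ Z, ∑ v ∈ Z, ((m u * m v : ℝ) : ℂ) * (w u * w v) ^ (a + j) := by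
      rw [Finset.sum_mul_sum]
      refine Finset.sum_congr rfl fun u _ => Finset.sum_congr rfl fun v _ => ?_
      rw [mul_pow]; push_cast; ring
    have e2 : (∑ u ∈ Z, (m u : ℂ) * w u ^ (a + j)) *
        (starRingEnd ℂ) (∑ u ∈ Z, (m u : ℂ) * w u ^ (a + j)) =
        ∑ u ∈ Z, ∑ v ∈ Z, ((m u * m v : ℝ) : ℂ) * (w u * (starRingEnd ℂ) (w v)) ^ (a + j) := by
      rw [map_sum, Finset.sum_mul_sum]
      refine Finset.sum_congr rfl fun u _ => Finset.sum_congr rfl fun v _ => ?_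
      rw [map_mul, Complex.conj_ofReal, map_pow, mul_pow]; push_cast; ring
    rw [e1, e2, Complex.re_sum, Complex.re_sum, ← Finset.sum_add_distrib, Finset.sum_div]
    refine Finset.sum_congr rfl fun u _ => ?_
    rw [Complex.re_sum, Complex.re_sum, ← Finset.sum_add_distrib, Finset.sum_div]
    refine Finset.sum_congr rfl fun v _ => ?_
    rw [Complex.re_ofReal_mul, Complex.re_ofReal_mul]
    ring
  have htot : ∑ j ∈ range K, (TT Z m w (a + j)).re ^ 2 =
      ∑ u ∈ Z, ∑ v ∈ Z, m u * m v * ((∑ j ∈ range K, (w u * w v) ^ (a + j)).re +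
        (∑ j ∈ range K, (w u * (starRingEnd ℂ) (w v)) ^ (a + j)).re) / 2 := by
    rw [Finset.sum_congr rfl fun j _ => hexp j, Finset.sum_comm]
    refine Finset.sum_congr rfl fun u _ => ?_
    rw [Finset.sum_comm]
    refine Finset.sum_congr rfl fun v _ => ?_
    rw [Complex.re_sum, Complex.re_sum, ← Finset.sum_add_distrib, Finset.mul_sum, Finset.sum_div]
  rw [htot]
  -- lower bound of every term, with the diagonal term of `u₀`
  have hconj : ∀ u ∈ Z, ∀ v ∈ Z, ‖w u * (starRingEnd ℂ) (w v)‖ = 1 := by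
    intro u hu v hv
    rw [norm_mul, Complex.norm_conj, hw u hu, hw v hv, one_mul]
  have hmul : ∀ u ∈ Z, ∀ v ∈ Z, ‖w u * w v‖ = 1 := by
    intro u hu v hv
    rw [norm_mul, hw u hu, hw v hv, one_mul]
  have hdiag : (∑ j ∈ range K, (w u₀ * (starRingEnd ℂ) (w u₀)) ^ (a + j)).re = K := by
    have : w u₀ * (starRingEnd ℂ) (w u₀) = 1 := by
      rw [Complex.mul_conj, Complex.normSq_eq_norm_sq, hw u₀ hu₀]; norm_num
    rw [this]; simp
  have hterm : ∀ u ∈ Z, ∀ v ∈ Z,
      (if u = u₀ ∧ v = u₀ then m u₀ ^ 2 / 2 * K else 0) -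
        m u * m v * (2 / ‖w u * w v - 1‖ + 2 / ‖w u * (starRingEnd ℂ) (w v) - 1‖) ≤
      m u * m v * ((∑ j ∈ range K, (w u * w v) ^ (a + j)).re +
        (∑ j ∈ range K, (w u * (starRingEnd ℂ) (w v)) ^ (a + j)).re) / 2 := by
    intro u hu v hv
    have g1 := pair_lower (hmul u hu v hv) a K
    have g2 := pair_lower (hconj u hu v hv) a K
    have g3 : 0 ≤ m u * m v := mul_nonneg (hm u hu) (hm v hv)
    set A := (∑ j ∈ range K, (w u * w v) ^ (a + j)).re
    set D := (∑ j ∈ range K, (w u * (starRingEnd ℂ) (w v)) ^ (a + j)).re with hD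
    set x := 2 / ‖w u * w v - 1‖
    set y := 2 / ‖w u * (starRingEnd ℂ) (w v) - 1‖
    have hx : 0 ≤ x := by positivity
    have hy : 0 ≤ y := by positivity
    split_ifs with h
    · obtain ⟨rfl, rfl⟩ := h
      have g4 : D = K := hdiag
      have g5 : m v * m v * (A + D) / 2 = m v ^ 2 / 2 * K + m v * m v * A / 2 := by rw [g4]; ring
      rw [g5]
      have g6 : m v * m v * (-x) ≤ m v * m v * A := mul_le_mul_of_nonneg_left g1 g3
      have g7 : 0 ≤ m v * m v * x := mul_nonneg g3 hx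
      have g8 : 0 ≤ m v * m v * y := mul_nonneg g3 hy
      nlinarith
    · have g6 : m u * m v * (-x) ≤ m u * m v * A := mul_le_mul_of_nonneg_left g1 g3
      have g7 : m u * m v * (-y) ≤ m u * m v * D := mul_le_mul_of_nonneg_left g2 g3
      have g8 : 0 ≤ m u * m v * x := mul_nonneg g3 hx
      have g9 : 0 ≤ m u * m v * y := mul_nonneg g3 hy
      nlinarith
  have hsum := Finset.sum_le_sum fun u hu => Finset.sum_le_sum fun v hv => hterm u hu v hv
  refine le_trans (le_of_eq ?_) hsum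
  rw [show (∑ u ∈ Z, ∑ v ∈ Z, ((if u = u₀ ∧ v = u₀ then m u₀ ^ 2 / 2 * (K : ℝ) else 0) -
        m u * m v * (2 / ‖w u * w v - 1‖ + 2 / ‖w u * (starRingEnd ℂ) (w v) - 1‖))) =
      (∑ u ∈ Z, ∑ v ∈ Z, (if u = u₀ ∧ v = u₀ then m u₀ ^ 2 / 2 * (K : ℝ) else 0)) - B by
    rw [hB, ← Finset.sum_sub_distrib]
    exact Finset.sum_congr rfl fun u _ => by rw [← Finset.sum_sub_distrib]]
  congr 1
  rw [Finset.sum_eq_single u₀]
  · rw [Finset.sum_eq_single u₀]
    · simp
    · intro v _ hv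
      simp [hv]
    · intro h; exact absurd hu₀ h
  · intro u _ hu
    exact Finset.sum_eq_zero fun v _ => by simp [hu]
  · intro h; exact absurd hu₀ h

/-- a bounded real sequence with small mean and large second moment takes large negative values with
positive density -/
theorem dense_neg {S : ℕ → ℝ} {M c A B : ℝ} (hM : 0 < M) (hc : 0 < c)
    (hb : ∀ k, |S k| ≤ M) (h1 : ∀ a K : ℕ, |∑ j ∈ range K, S (a + j)| ≤ A)
    (h2 : ∀ a K : ℕ, c * K - B ≤ ∑ j ∈ range K, S (a + j) ^ 2) :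
    ∃ δ : ℝ, 0 < δ ∧ ∃ K0 : ℕ, ∀ a K : ℕ, K0 ≤ K →
      δ * K ≤ (((range K).filter fun j => S (a + j) ≤ -δ).card : ℝ) := by
  -- choose `δ` with `2 M (M + 1) δ ≤ c / 2`
  set δ : ℝ := c / (4 * M * (M + 1)) with hδ
  have hδ0 : 0 < δ := by positivity
  obtain ⟨K0, hK0⟩ := exists_nat_ge ((B + M * A) / (c / 2))
  refine ⟨δ, hδ0, K0, fun a K hK => ?_⟩
  by_contra hcon
  push Not at hcon
  set N := (range K).filter fun j => S (a + j) ≤ -δ with hN
  have hKr : (K0 : ℝ) ≤ K := by exact_mod_cast hK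
  -- the sum of the negative parts
  have hneg : ∑ j ∈ range K, max (-S (a + j)) 0 ≤ M * N.card + δ * K := by
    have h3 : ∀ j ∈ range K, max (-S (a + j)) 0 ≤ (if S (a + j) ≤ -δ then M else 0) + δ := by
      intro j _
      have h4 := abs_le.1 (hb (a + j))
      split_ifs with h
      · exact max_le (by linarith) (by linarith)
      · push Not at h
        exact max_le (by linarith) (by linarith)
    calc ∑ j ∈ range K, max (-S (a + j)) 0
        ≤ ∑ j ∈ range K, ((if S (a + j) ≤ -δ then M else 0) + δ) := Finset.sum_le_sum h3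
      _ = M * N.card + δ * K := by
        rw [Finset.sum_add_distrib, ← Finset.sum_filter, Finset.sum_const, Finset.sum_const, card_range,
          nsmul_eq_mul, nsmul_eq_mul]
        ring
  -- the sum of the squares
  have hsq : ∑ j ∈ range K, S (a + j) ^ 2 ≤ M * ∑ j ∈ range K, |S (a + j)| := by
    rw [Finset.mul_sum]
    refine Finset.sum_le_sum fun j _ => ?_
    rw [← sq_abs, pow_two]
    exact mul_le_mul_of_nonneg_right (hb _) (abs_nonneg _)
  have habs : ∑ j ∈ range K, |S (a + j)| =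
      ∑ j ∈ range K, S (a + j) + 2 * ∑ j ∈ range K, max (-S (a + j)) 0 := by
    rw [Finset.mul_sum, ← Finset.sum_add_distrib]
    refine Finset.sum_congr rfl fun j _ => ?_
    rcases le_total 0 (S (a + j)) with h | h
    · rw [abs_of_nonneg h, max_eq_right (by linarith)]; ring
    · rw [abs_of_nonpos h, max_eq_left (by linarith)]; ring
  have h5 := h2 a K
  have h6 := (abs_le.1 (h1 a K)).2
  have h7 : c * K - B ≤ M * (A + 2 * (M * N.card + δ * K)) := by
    refine h5.trans (hsq.trans (mul_le_mul_of_nonneg_left ?_ hM.le))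
    rw [habs]
    linarith
  have h8 : M * (A + 2 * (M * N.card + δ * K)) < M * (A + 2 * (M * (δ * K) + δ * K)) ∨ M * (A + 2 * (M * N.card + δ * K)) ≤ M * (A + 2 * (M * (δ * K) + δ * K)) := by
    right
    gcongr
  have h9 : M * (A + 2 * (M * (δ * K) + δ * K)) = M * A + 2 * M * (M + 1) * δ * K := by ring
  have h10 : 2 * M * (M + 1) * δ = c / 2 := by
    rw [hδ]; field_simp; ring
  have h11 : c * K - B ≤ M * A + c / 2 * K := by
    have : M * (A + 2 * (M * N.card + δ * K)) ≤ M * A + c / 2 * K := by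
      rcases h8 with h | h
      · rw [h9, h10] at h; exact h.le
      · rw [h9, h10] at h; exact h
    linarith
  -- strictness: the count is an integer smaller than `δ K`
  have h12 : M * (A + 2 * (M * N.card + δ * K)) < M * A + c / 2 * K := by
    have h13 : M * (A + 2 * (M * N.card + δ * K)) < M * (A + 2 * (M * (δ * K) + δ * K)) := by
      have : M * (N.card : ℝ) < M * (δ * K) := mul_lt_mul_of_pos_left hcon hM
      exact mul_lt_mul_of_pos_left (by linarith) hM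
    rw [h9, h10] at h13
    exact h13
  have h14 : c / 2 * K < B + M * A := by linarith
  have h15 : (B + M * A) / (c / 2) ≤ K := hK0.trans hKr
  rw [div_le_iff₀ (by positivity)] at h15
  linarith

/-- **Sums of exponentials without constant term.** -/
theorem dense_TT {Z : Finset ι} {m : ι → ℝ} {w : ι → ℂ} (hm : ∀ u ∈ Z, 0 < m u)
    (hw : ∀ u ∈ Z, ‖w u‖ = 1) (h1 : ∀ u ∈ Z, w u ≠ 1) (hZ : Z.Nonempty) :
    ∃ δ : ℝ, 0 < δ ∧ ∃ K0 : ℕ, ∀ a K : ℕ, K0 ≤ K →
      δ * K ≤ (((range K).filter fun j => (TT Z m w (a + j)).re ≤ -δ).card : ℝ) ∧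
      δ * K ≤ (((range K).filter fun j => δ ≤ (TT Z m w (a + j)).re).card : ℝ) := by
  obtain ⟨u₀, hu₀⟩ := hZ
  have hm' : ∀ u ∈ Z, 0 ≤ m u := fun u hu => (hm u hu).le
  have hM : 0 < ∑ u ∈ Z, m u := Finset.sum_pos hm ⟨u₀, hu₀⟩
  obtain ⟨B, hB, h2⟩ := second_ge hm' hw hu₀
  have hb : ∀ k, |(TT Z m w k).re| ≤ ∑ u ∈ Z, m u := fun k =>
    (Complex.abs_re_le_norm _).trans (TT_le hm' hw k)
  have hc : 0 < m u₀ ^ 2 / 2 := by have := hm u₀ hu₀; positivity
  obtain ⟨δ1, hδ1, K1, hK1⟩ := dense_neg (S := fun k => (TT Z m w k).re) hM hc hb (mean_le hm' hw h1) h2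
  obtain ⟨δ2, hδ2, K2, hK2⟩ := dense_neg (S := fun k => -(TT Z m w k).re) (A := ∑ u ∈ Z, m u * (2 / ‖w u - 1‖))
    (B := B) hM hc
    (fun k => by rw [abs_neg]; exact hb k)
    (fun a K => by
      rw [Finset.sum_neg_distrib, abs_neg]
      exact mean_le hm' hw h1 a K)
    (fun a K => by simpa using h2 a K)
  refine ⟨min δ1 δ2, lt_min hδ1 hδ2, max K1 K2, fun a K hK => ⟨?_, ?_⟩⟩
  · refine le_trans ?_ ((hK1 a K ((le_max_left _ _).trans hK)).trans ?_)
    · exact mul_le_mul_of_nonneg_right (min_le_left _ _) (Nat.cast_nonneg _)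
    · exact_mod_cast Finset.card_le_card (Finset.monotone_filter_right _ fun j _ h => by
        have := min_le_left δ1 δ2
        have h' : (TT Z m w (a + j)).re ≤ -δ1 := h
        show (TT Z m w (a + j)).re ≤ -min δ1 δ2
        linarith)
  · refine le_trans ?_ ((hK2 a K ((le_max_right _ _).trans hK)).trans ?_)
    · exact mul_le_mul_of_nonneg_right (min_le_right _ _) (Nat.cast_nonneg _)
    · exact_mod_cast Finset.card_le_card (Finset.monotone_filter_right _ fun j _ h => by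
        have := min_le_right δ1 δ2
        have h' : -(TT Z m w (a + j)).re ≤ -δ2 := h
        show min δ1 δ2 ≤ (TT Z m w (a + j)).re
        linarith)

end Pool.Agent.X25.Li
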