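import Pool.Agent.X25.Li.Block
import Pool.Agent.X25.Li.Pos
import Pool.Agent.H24R2.JP.Had
import Pool.Agent.H24R2.JP.RH1
import Pool.Agent.H24R2.JP.RH2
import Pool.Agent.H24R2.JP.B1
import Pool.Agent.H24R2.JP.Gam
import Pool.Agent.H24R2.JP.Mom
import Pool.Agent.H24R2.JP.Grow

/-! The Riemann xi function in the unit disc. -/

set_option autoImplicit false

namespace Pool.Agent.X25.Li

open Metric Set Filter Topology Polynomial
open Pool.Agent.H24R2.JP (XX FF gam)

/-- the Riemann xi function -/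
noncomputable def xi (s : ℂ) : ℂ := s * (s - 1) / 2 * completedRiemannZeta₀ s + 1 / 2

/-- `ξ(1/(1-z))` -/
noncomputable def phi (z : ℂ) : ℂ := xi (1 / (1 - z))

/-- Li's coefficients -/
noncomputable def li (n : ℕ) : ℝ :=
  (iteratedDeriv (n - 1) (fun z => deriv phi z / phi z) 0 / ((n - 1).factorial : ℂ)).re

theorem XX_xi (s : ℂ) : XX (s - 1 / 2) = 8 * xi s := by
  unfold XX xi
  have h : (1 / 2 : ℂ) + (s - 1 / 2) = s := by ring
  rw [h]
  ring

theorem xi_one_sub (s : ℂ) : xi (1 - s) = xi s := by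
  have h1 := XX_xi (1 - s)
  have h2 := XX_xi s
  have h3 : (1 - s - 1 / 2 : ℂ) = -(s - 1 / 2) := by ring
  rw [h3, Pool.Agent.H24R2.JP.B1h.XX_neg, h2] at h1
  exact (mul_left_cancel₀ (by norm_num) h1).symm

theorem phi_eq (z : ℂ) : phi z = FF (hh z) / 8 := by
  unfold phi hh
  rw [Pool.Agent.H24R2.JP.B1h.FF_sq, XX_xi]
  ring

theorem FF_diff : Differentiable ℂ FF := Pool.Agent.H24R2.JP.b1.1

theorem phi_an : AnalyticOnNhd ℂ phi (ball 0 1) := by
  intro z hz
  have h1 : AnalyticAt ℂ (fun z => FF (hh z) / 8) z :=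
    ((FF_diff.analyticAt (hh z)).comp (hh_an z hz)).div analyticAt_const (by norm_num)
  have h2 : phi = fun z => FF (hh z) / 8 := funext phi_eq
  rw [h2]
  exact h1

theorem phi_zero : phi 0 = 1 / 2 := by
  unfold phi xi
  norm_num

theorem logder_eq : (fun z => deriv phi z / phi z) =
    fun z => deriv (fun z => FF (hh z)) z / FF (hh z) := by
  funext z
  have h2 : phi = fun z => FF (hh z) / 8 := funext phi_eq
  rw [h2]
  simp only [deriv_div_const]
  rw [div_div_div_cancel_right₀ (by norm_num)]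

/-- zeros of `φ` in the disc are zeros of zeta in the right half of the strip -/
theorem zero_of_phi {u : ℂ} (hu : ‖u‖ < 1) (h : phi u = 0) :
    ∃ ρ : ℂ, riemannZeta ρ = 0 ∧ 1 / 2 < ρ.re ∧ ρ.re < 1 ∧ u = 1 - 1 / ρ := by
  have h1 : (1 : ℂ) - u ≠ 0 := one_sub_ne (by rw [mem_ball_zero_iff]; exact hu)
  set ρ : ℂ := 1 / (1 - u) with hρ
  have hρ0 : ρ ≠ 0 := by rw [hρ]; exact one_div_ne_zero h1
  have hu2 : u = 1 - 1 / ρ := by rw [hρ, one_div_one_div]; ring
  have hx : XX (ρ - 1 / 2) = 0 := by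
    rw [XX_xi]
    have : phi u = xi ρ := rfl
    rw [← this, h, mul_zero]
  obtain ⟨g1, g2, g3⟩ := Pool.Agent.H24R2.JP.Zer.completed_zero _ hx
  have e : (1 / 2 : ℂ) + (ρ - 1 / 2) = ρ := by ring
  rw [e] at g1 g2 g3
  have hz : riemannZeta ρ = 0 := by
    rw [riemannZeta_def_of_ne_zero g1, g3, zero_div]
  have hre1 : ρ.re < 1 := by
    by_contra hcon
    push Not at hcon
    exact riemannZeta_ne_zero_of_one_le_re hcon hz
  refine ⟨ρ, hz, ?_, hre1, hu2⟩
  -- the real part is larger than `1/2`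
  have h3 : ‖ρ - 1‖ < ‖ρ‖ := by
    have e1 : ρ - 1 = u * ρ := by
      rw [hu2]; field_simp
    rw [e1, norm_mul]
    have : 0 < ‖ρ‖ := norm_pos_iff.2 hρ0
    nlinarith
  have h4 : ‖ρ - 1‖ ^ 2 < ‖ρ‖ ^ 2 := pow_lt_pow_left₀ h3 (norm_nonneg _) two_ne_zero
  rw [← Complex.normSq_eq_norm_sq, ← Complex.normSq_eq_norm_sq, Complex.normSq_apply, Complex.normSq_apply] at h4
  simp only [Complex.sub_re, Complex.one_re, Complex.sub_im, Complex.one_im] at h4
  nlinarith

/-- a zero of `ξ` to the right of the line gives a zero in the disc -/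
theorem phi_of_xi {s : ℂ} (hs : 1 / 2 < s.re) (h : xi s = 0) : ∃ u : ℂ, ‖u‖ < 1 ∧ phi u = 0 := by
  have hs0 : s ≠ 0 := by
    rintro rfl
    rw [Complex.zero_re] at hs
    norm_num at hs
  refine ⟨1 - 1 / s, ?_, ?_⟩
  · have e1 : (1 - 1 / s) = (s - 1) / s := by field_simp
    rw [e1, norm_div, div_lt_one (norm_pos_iff.2 hs0)]
    refine lt_of_pow_lt_pow_left₀ 2 (norm_nonneg _) ?_
    rw [← Complex.normSq_eq_norm_sq, ← Complex.normSq_eq_norm_sq, Complex.normSq_apply, Complex.normSq_apply]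
    simp only [Complex.sub_re, Complex.one_re, Complex.sub_im, Complex.one_im]
    nlinarith
  · unfold phi
    rw [show (1 : ℂ) / (1 - (1 - 1 / s)) = s by rw [sub_sub_cancel, one_div_one_div]]
    exact h

/-- if `φ` has no zeros in the disc, the Riemann hypothesis holds -/
theorem rh_of_phi (h : ∀ u : ℂ, ‖u‖ < 1 → phi u ≠ 0) : RiemannHypothesis := by
  intro s hs hntriv hs1
  have hs0 : s ≠ 0 := by
    rintro rfl
    rw [riemannZeta_zero] at hs
    norm_num at hs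
  have hL : completedRiemannZeta s = 0 := by
    rw [riemannZeta_def_of_ne_zero hs0] at hs
    rcases div_eq_zero_iff.mp hs with h | h
    · exact h
    · exfalso
      obtain ⟨n, hn⟩ := Complex.Gammaℝ_eq_zero_iff.mp h
      rcases n with _ | n
      · apply hs0; rw [hn]; simp
      · apply hntriv; exact ⟨n, by rw [hn]; push_cast; ring⟩
  have hxi : xi s = 0 := by
    unfold xi
    have h4 : completedRiemannZeta₀ s = 1 / s + 1 / (1 - s) := by
      have h5 := completedRiemannZeta_eq s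
      rw [hL] at h5
      linear_combination -h5
    rw [h4]
    have h6 : (1 : ℂ) - s ≠ 0 := sub_ne_zero.mpr (Ne.symm hs1)
    field_simp
    ring
  by_contra hne
  rcases lt_or_gt_of_ne hne with h1 | h1
  · obtain ⟨u, hu, hu0⟩ := phi_of_xi (s := 1 - s) (by
      rw [Complex.sub_re, Complex.one_re]; linarith) (by rw [xi_one_sub]; exact hxi)
    exact h u hu hu0
  · obtain ⟨u, hu, hu0⟩ := phi_of_xi h1 hxi
    exact h u hu hu0

/-- nonnegative real numbers are not zeros of `FF` -/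
theorem FF_pos {x : ℝ} (hx : 0 ≤ x) : FF (x : ℂ) ≠ 0 := by
  intro h0
  have hg := (Pool.Agent.H24R2.JP.gamS Pool.Agent.H24R2.JP.mom).1
  have hsum := Pool.Agent.H24R2.JP.rh2_summable Pool.Agent.H24R2.JP.b1 (x : ℂ)
  rw [h0] at hsum
  have hre := Complex.hasSum_re hsum
  have hpos : ∀ k : ℕ, 0 ≤ (((gam k : ℝ) : ℂ) / (k.factorial : ℂ) * (x : ℂ) ^ k).re := by
    intro k
    have h9 : ((gam k : ℝ) : ℂ) / (k.factorial : ℂ) * (x : ℂ) ^ k =
        ((gam k / (k.factorial : ℝ) * x ^ k : ℝ) : ℂ) := by push_cast; ring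
    rw [h9, Complex.ofReal_re]
    have := hg k
    positivity
  have h1 : (((gam 0 : ℝ) : ℂ) / ((Nat.factorial 0 : ℕ) : ℂ) * (x : ℂ) ^ 0).re = gam 0 := by simp
  have h10 := le_hasSum hre 0 (fun k _ => hpos k)
  rw [h1] at h10
  have := hg 0
  simp at h10
  linarith

/-- **Li's inequality under the Riemann hypothesis.** -/
theorem li_nonneg (hRH : RiemannHypothesis) (n : ℕ) : 0 ≤ li n := by
  obtain ⟨K, hK⟩ := Pool.Agent.H24R2.JP.grow Pool.Agent.H24R2.JP.b1
  have hFz : ∀ x : ℂ, FF x = 0 → ∃ t : ℝ, 0 < t ∧ x = -(t : ℂ) := by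
    intro x hx
    have him := Pool.Agent.H24R2.JP.RHa.real_zeros Pool.Agent.H24R2.JP.b1 hRH x hx
    have hxr : x = ((x.re : ℝ) : ℂ) := by apply Complex.ext <;> simp [him]
    refine ⟨-x.re, ?_, ?_⟩
    · by_contra hcon
      push Not at hcon
      have : 0 ≤ x.re := by linarith
      apply FF_pos this
      rw [← hxr]; exact hx
    · apply Complex.ext <;> simp [him]
  have h0 : FF 0 ≠ 0 := by
    have := FF_pos (le_refl (0 : ℝ))
    simpa using this
  obtain ⟨P, hP1, hP2⟩ := Pool.Agent.H24R2.JP.had FF K FF_diff h0 Pool.Agent.H24R2.JP.b1.2.2.1 hK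
  have hne : ∀ z ∈ ball (0 : ℂ) 1, FF (hh z) ≠ 0 := by
    intro z hz h
    obtain ⟨t, ht, h1⟩ := hFz _ h
    apply fac_ne ht hz
    rw [h1]; ring
  have key := pos_of_approx FF_diff (fun N x hx => hFz x (hP1 N x hx)) hP2 hne (n - 1)
  rw [← logder_eq] at key
  exact key

/-- `1 + i x` in polar form -/
theorem polar (x : ℝ) : (1 + x * Complex.I : ℂ) = (Real.sqrt (1 + x ^ 2) : ℝ) * Complex.exp (Real.arctan x * Complex.I) := by
  have h0 : 0 < Real.sqrt (1 + x ^ 2) := Real.sqrt_pos.2 (by positivity)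
  rw [Complex.exp_mul_I, ← Complex.ofReal_cos, ← Complex.ofReal_sin, Real.cos_arctan, Real.sin_arctan]
  have h1 : ((Real.sqrt (1 + x ^ 2) : ℝ) : ℂ) ≠ 0 := by exact_mod_cast h0.ne'
  push_cast
  field_simp

theorem arctan_le {x : ℝ} (hx : 0 ≤ x) : Real.arctan x ≤ x := by
  have h1 : 0 ≤ Real.arctan x := Real.arctan_nonneg.2 hx
  have h2 := Real.le_tan h1 (Real.arctan_lt_pi_div_two x)
  rwa [Real.tan_arctan] at h2

theorem angle_pos {ρ : ℂ} (h1 : 0 < ρ.re) (h2 : ρ.re < 1) (him : 0 < ρ.im) {q : ℕ} (hq : 1 ≤ q)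
    (hq2 : (q : ℝ) < 2 * Real.pi * ρ.im) : (1 - 1 / ρ) ^ q ≠ ((‖1 - 1 / ρ‖ : ℝ) : ℂ) ^ q := by
  set a : ℝ := (1 - ρ.re) / ρ.im with ha
  set b : ℝ := ρ.re / ρ.im with hb
  have ha0 : 0 < a := div_pos (by linarith) him
  have hb0 : 0 < b := div_pos h1 him
  have hab : a + b = 1 / ρ.im := by rw [ha, hb, ← add_div]; congr 1; ring
  set θ : ℝ := Real.arctan a + Real.arctan b with hθ
  have hθ0 : 0 < θ := add_pos (Real.arctan_pos.2 ha0) (Real.arctan_pos.2 hb0)
  have hθ1 : θ ≤ 1 / ρ.im := by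
    rw [← hab]; exact add_le_add (arctan_le ha0.le) (arctan_le hb0.le)
  set c : ℝ := Real.sqrt (1 + a ^ 2) * Real.sqrt (1 + b ^ 2) / (1 + b ^ 2) with hc
  have hc0 : 0 < c := by
    have e1 : 0 < Real.sqrt (1 + a ^ 2) := Real.sqrt_pos.2 (by positivity)
    have e2 : 0 < Real.sqrt (1 + b ^ 2) := Real.sqrt_pos.2 (by positivity)
    positivity
  have hρ : ρ = ρ.im * Complex.I * (1 - b * Complex.I) := by
    have e1 : (b : ℂ) * ρ.im = ρ.re := by
      rw [hb]; push_cast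
      have : (ρ.im : ℂ) ≠ 0 := by exact_mod_cast him.ne'
      field_simp
    have e2 : ρ = ρ.re + ρ.im * Complex.I := (Complex.re_add_im ρ).symm
    have hI : Complex.I ^ 2 = -1 := Complex.I_sq
    calc ρ = ρ.re + ρ.im * Complex.I := e2
      _ = _ := by rw [← e1]; linear_combination (ρ.im * b : ℂ) * hI
  have hρ1 : ρ - 1 = ρ.im * Complex.I * (1 + a * Complex.I) := by
    have e1 : (a : ℂ) * ρ.im = 1 - ρ.re := by
      rw [ha]; push_cast
      have : (ρ.im : ℂ) ≠ 0 := by exact_mod_cast him.ne'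
      field_simp
    have e2 : ρ = ρ.re + ρ.im * Complex.I := (Complex.re_add_im ρ).symm
    have hI : Complex.I ^ 2 = -1 := Complex.I_sq
    calc ρ - 1 = ρ.re + ρ.im * Complex.I - 1 := by rw [← e2]
      _ = _ := by linear_combination e1 - (ρ.im * a : ℂ) * hI
  have hρ0 : ρ ≠ 0 := by
    intro h; rw [h] at him; simp at him
  have hkey : (1 - 1 / ρ : ℂ) = (c : ℂ) * Complex.exp (θ * Complex.I) := by
    have e0 : (1 - 1 / ρ : ℂ) = (ρ - 1) / ρ := by field_simp
    have hI : Complex.I ^ 2 = -1 := Complex.I_sq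
    have hb1 : (1 + (b : ℂ) ^ 2) ≠ 0 := by
      have : (0 : ℝ) < 1 + b ^ 2 := by positivity
      exact_mod_cast this.ne'
    have e1 : (ρ - 1) / ρ = (1 + a * Complex.I) * (1 + b * Complex.I) / (1 + b ^ 2) := by
      rw [div_eq_div_iff hρ0 hb1, hρ1]
      conv_rhs => rw [hρ]
      linear_combination (ρ.im * Complex.I * (1 + a * Complex.I) * (b : ℂ) ^ 2) * hI
    rw [e0, e1, polar a, polar b, hc, hθ]
    push_cast
    rw [add_mul, Complex.exp_add]
    ring
  intro h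
  have hn : ‖1 - 1 / ρ‖ = c := by
    rw [hkey, norm_mul, Complex.norm_exp_ofReal_mul_I, mul_one, Complex.norm_real, Real.norm_of_nonneg hc0.le]
  rw [hn, hkey, mul_pow] at h
  have hcq : ((c : ℝ) : ℂ) ^ q ≠ 0 := pow_ne_zero _ (by exact_mod_cast hc0.ne')
  have h3 : Complex.exp (θ * Complex.I) ^ q = 1 := by
    have : ((c : ℝ) : ℂ) ^ q * Complex.exp (θ * Complex.I) ^ q = ((c : ℝ) : ℂ) ^ q * 1 := by rw [mul_one]; exact h
    exact mul_left_cancel₀ hcq this
  rw [← Complex.exp_nat_mul, Complex.exp_eq_one_iff] at h3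
  obtain ⟨n, hn2⟩ := h3
  have h4 : (q : ℝ) * θ = n * (2 * Real.pi) := by
    have h5 := congrArg Complex.im hn2
    simpa using h5
  have hq0 : (0 : ℝ) < q := by exact_mod_cast hq
  have h6 : 0 < (n : ℝ) * (2 * Real.pi) := by rw [← h4]; positivity
  have h7 : (n : ℝ) * (2 * Real.pi) < 2 * Real.pi := by
    rw [← h4]
    calc (q : ℝ) * θ ≤ q * (1 / ρ.im) := mul_le_mul_of_nonneg_left hθ1 hq0.le
      _ < (2 * Real.pi * ρ.im) * (1 / ρ.im) := mul_lt_mul_of_pos_right hq2 (by positivity)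
      _ = 2 * Real.pi := by field_simp
  have hpi := Real.two_pi_pos
  have h8 : 0 < (n : ℝ) := by
    by_contra hcon
    push Not at hcon
    have := mul_nonpos_of_nonpos_of_nonneg hcon hpi.le
    linarith
  have h9 : (n : ℝ) < 1 := by
    by_contra hcon
    push Not at hcon
    have := mul_le_mul_of_nonneg_right hcon hpi.le
    linarith
  have h10 : 0 < n := by exact_mod_cast h8
  have h11 : n < 1 := by exact_mod_cast h9
  omega

theorem angle {ρ : ℂ} (h1 : 0 < ρ.re) (h2 : ρ.re < 1) {q : ℕ} (hq : 1 ≤ q)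
    (hq2 : (q : ℝ) < 2 * Real.pi * |ρ.im|) : (1 - 1 / ρ) ^ q ≠ ((‖1 - 1 / ρ‖ : ℝ) : ℂ) ^ q := by
  have hq0 : (0 : ℝ) < q := by exact_mod_cast hq
  have him : ρ.im ≠ 0 := by
    intro h
    rw [h, abs_zero, mul_zero] at hq2
    linarith
  rcases lt_or_gt_of_ne him with h | h
  · have h3 := angle_pos (ρ := (starRingEnd ℂ) ρ) (by simpa using h1) (by simpa using h2) (by simpa using h) hq
      (by rw [Complex.conj_im]; rwa [abs_of_neg h] at hq2)
    intro h4
    apply h3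
    have e1 : (1 - 1 / (starRingEnd ℂ) ρ : ℂ) = (starRingEnd ℂ) (1 - 1 / ρ) := by
      rw [map_sub, map_div₀, map_one]
    rw [e1, Complex.norm_conj, ← map_pow, h4, map_pow, Complex.conj_ofReal]
  · exact angle_pos h1 h2 h hq (by rwa [abs_of_pos h] at hq2)

/-- the case `q = 1` -/
theorem angle_one {ρ : ℂ} (h2 : ρ.re < 1) (h : ‖1 - 1 / ρ‖ < 1) :
    (1 - 1 / ρ) ^ 1 ≠ ((‖1 - 1 / ρ‖ : ℝ) : ℂ) ^ 1 := by
  intro h3
  rw [pow_one, pow_one] at h3
  set r : ℝ := ‖1 - 1 / ρ‖ with hr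
  have hr0 : 0 ≤ r := norm_nonneg _
  have h4 : 1 / ρ = ((1 - r : ℝ) : ℂ) := by
    push_cast; rw [← h3]; ring
  have h5 : ρ = ((1 / (1 - r) : ℝ) : ℂ) := by
    have : ρ = 1 / (1 / ρ) := by rw [one_div_one_div]
    rw [this, h4]; push_cast; rfl
  rw [h5, Complex.ofReal_re] at h2
  have h6 : 0 < 1 - r := by linarith
  rw [div_lt_one h6] at h2
  linarith

end Pool.Agent.X25.Li
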